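import Mathlib

set_option autoImplicit false

/-!
Exact evaluations of the terminating series `∑ (-n/2)_k ((1-n)/2)_k / (((2-2n)/3)_k k!) (4/3)^k` with
the weights `1`, `k - n`, `k/(k-n)`.
-/

namespace Pool.Agent.K3h4.H48

open Finset

/-- the terms -/
def t (n k : ℕ) : ℚ := ∏ i ∈ range k,
  (((n : ℚ) - 2 * i) * (n - 1 - 2 * i) / ((2 - 2 * n + 3 * i) * (1 + i)))

theorem t_zero (n : ℕ) : t n 0 = 1 := by simp [t]

theorem t_succ (n k : ℕ) : t n (k + 1) = t n k *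
    (((n : ℚ) - 2 * k) * (n - 1 - 2 * k) / ((2 - 2 * n + 3 * k) * (1 + k))) := by
  rw [t, prod_range_succ, ← t]

theorem t_van {n k : ℕ} (h : n < 2 * k) : t n k = 0 := by
  have hk : n / 2 < k := by omega
  rw [t]
  refine prod_eq_zero (mem_range.2 hk) ?_
  rcases Nat.mod_two_eq_zero_or_one n with h2 | h2
  · have : (n : ℚ) = 2 * ((n / 2 : ℕ) : ℚ) := by exact_mod_cast (by omega : n = 2 * (n / 2))
    have e : (n : ℚ) - 2 * ((n / 2 : ℕ) : ℚ) = 0 := by rw [← this]; ring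
    rw [e]; simp
  · have : (n : ℚ) = 2 * ((n / 2 : ℕ) : ℚ) + 1 := by exact_mod_cast (by omega : n = 2 * (n / 2) + 1)
    have e : (n : ℚ) - 1 - 2 * ((n / 2 : ℕ) : ℚ) = 0 := by linear_combination this
    rw [e]; simp

/-- no zero in the denominators up to `k` -/
def Ok (n k : ℕ) : Prop := n % 3 ≠ 1 ∨ 3 * k < 2 * n + 1

theorem Ok.d1 {n k : ℕ} (h : Ok n k) : (3 * (k : ℚ) - 2 * n - 1) ≠ 0 := by
  intro h0
  have h1 : (3 * (k : ℤ) - 2 * n - 1) = 0 := by exact_mod_cast h0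
  rcases h with h | h <;> omega

theorem Ok.d4 {n k : ℕ} (h : Ok n k) : (3 * (k : ℚ) - 2 * n - 4) ≠ 0 := by
  intro h0
  have h1 : (3 * (k : ℤ) - 2 * n - 4) = 0 := by exact_mod_cast h0
  rcases h with h | h <;> omega

theorem Ok.dm {n k : ℕ} (h : Ok n (k + 1)) : (2 - 2 * (n : ℚ) + 3 * k) ≠ 0 := by
  intro h0
  have h1 : (2 - 2 * (n : ℤ) + 3 * k) = 0 := by exact_mod_cast h0
  rcases h with h | h <;> omega

theorem Ok.pred {n k : ℕ} (h : Ok n (k + 1)) : Ok n k := by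
  rcases h with h | h
  · exact Or.inl h
  · exact Or.inr (by omega)

/-- relation between `t n` and `t (n+3)` -/
theorem rel (n : ℕ) : ∀ k : ℕ, Ok n k → t n k * (((n : ℚ) + 3) * (n + 2) * (n + 1) * (3 * k - 2 * n - 4) *
    (3 * k - 2 * n - 1)) = t (n + 3) k * ((2 * (n : ℚ) + 4) * (2 * n + 1) * (n + 3 - 2 * k) * (n + 2 - 2 * k) *
    (n + 1 - 2 * k)) := by
  intro k
  induction k with
  | zero => intro _; simp only [t_zero]; push_cast; ring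
  | succ k ih =>
    intro hk
    have ih := ih hk.pred
    have a1 := hk.dm
    have a2 := hk.pred.d4
    have a3 := hk.pred.d1
    have a4 : (1 + (k : ℚ)) ≠ 0 := by positivity
    have a5 : (2 - 2 * (((n + 3 : ℕ)) : ℚ) + 3 * k) ≠ 0 := by
      intro h; apply a2; push_cast at h; linear_combination h
    rw [t_succ, t_succ]
    push_cast at a5 ⊢
    have e : t n k * (((n : ℚ) - 2 * k) * (n - 1 - 2 * k) / ((2 - 2 * n + 3 * k) * (1 + k))) *
        (((n : ℚ) + 3) * (n + 2) * (n + 1) * (3 * (k + 1) - 2 * n - 4) * (3 * (k + 1) - 2 * n - 1)) =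
        (t n k * (((n : ℚ) + 3) * (n + 2) * (n + 1) * (3 * k - 2 * n - 4) * (3 * k - 2 * n - 1))) *
          (((n : ℚ) - 2 * k) * (n - 1 - 2 * k) / ((3 * k - 2 * n - 4) * (1 + k))) := by
      have eD : (3 * ((k : ℚ) + 1) - 2 * n - 1) = 2 - 2 * n + 3 * k := by ring
      have eE : (3 * ((k : ℚ) + 1) - 2 * n - 4) = 3 * k - 2 * n - 1 := by ring
      rw [eD, eE]
      generalize (2 - 2 * (n : ℚ) + 3 * k) = D3 at a1 ⊢
      generalize (3 * (k : ℚ) - 2 * n - 1) = D2 at a3 ⊢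
      generalize (3 * (k : ℚ) - 2 * n - 4) = D1 at a2 ⊢
      field_simp
    rw [e, ih]
    have e2 : (2 - 2 * ((n : ℚ) + 3) + 3 * k) = 3 * k - 2 * n - 4 := by ring
    rw [e2]
    field_simp
    ring

/-! ### Telescoping -/

/-- auxiliary quantity -/
def V (n k : ℕ) : ℚ := (k : ℚ) / (3 * k - 2 * n - 4) * t (n + 3) k

theorem rel' {n k : ℕ} (h : Ok n k) : ∃ w : ℚ, t (n + 3) k = w * ((3 * k - 2 * n - 4) * (3 * k - 2 * n - 1)) ∧
    t n k = w * ((2 * (n : ℚ) + 4) * (2 * n + 1) * (n + 3 - 2 * k) * (n + 2 - 2 * k) * (n + 1 - 2 * k)) /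
      ((n + 3) * (n + 2) * (n + 1)) ∧
    V n (k + 1) = w * ((n + 3 - 2 * k) * (n + 2 - 2 * k)) ∧ V n k = w * (k * (3 * k - 2 * n - 1)) := by
  have a1 := h.d1
  have a4 := h.d4
  have r := rel n k h
  have b1 : ((n : ℚ) + 1) ≠ 0 := by positivity
  have b2 : ((n : ℚ) + 2) ≠ 0 := by positivity
  have b3 : ((n : ℚ) + 3) ≠ 0 := by positivity
  have b4 : (1 + (k : ℚ)) ≠ 0 := by positivity
  obtain ⟨C, hC⟩ : ∃ C : ℚ, C = (n + 3) * (n + 2) * (n + 1) := ⟨_, rfl⟩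
  have hC0 : C ≠ 0 := by rw [hC]; exact mul_ne_zero (mul_ne_zero b3 b2) b1
  have e1 : t (n + 3) (k + 1) = t (n + 3) k * (((n : ℚ) + 3 - 2 * k) * (n + 2 - 2 * k) /
      ((3 * k - 2 * n - 4) * (1 + k))) := by
    rw [t_succ]; push_cast
    congr 2
    · ring
    · ring
  rw [V, V, e1, ← hC, show (3 * ((k + 1 : ℕ) : ℚ) - 2 * n - 4) = 3 * k - 2 * n - 1 by push_cast; ring,
    show ((k + 1 : ℕ) : ℚ) = 1 + k by push_cast; ring]
  rw [← hC] at r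
  generalize (3 * (k : ℚ) - 2 * n - 1) = D2 at *
  generalize (3 * (k : ℚ) - 2 * n - 4) = D1 at *
  refine ⟨t (n + 3) k / (D1 * D2), ?_, ?_, ?_, ?_⟩
  · field_simp
  · have : t n k = t n k * (C * D1 * D2) / (C * (D1 * D2)) := by field_simp
    rw [this, r]
    field_simp
  · field_simp
  · field_simp

theorem stepF {n k : ℕ} (h : Ok n k) : 2 * (2 * (n : ℚ) + 1) * t (n + 3) k + (n + 1) * t n k =
    2 * (2 * (n : ℚ) + 1) / (n + 3) * ((5 * n + 11 - 8 * (k + 1)) * V n (k + 1)) -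
    2 * (2 * (n : ℚ) + 1) / (n + 3) * ((5 * n + 11 - 8 * k) * V n k) := by
  obtain ⟨w, h1, h2, h3, h4⟩ := rel' h
  have b1 : ((n : ℚ) + 1) ≠ 0 := by positivity
  have b2 : ((n : ℚ) + 2) ≠ 0 := by positivity
  have b3 : ((n : ℚ) + 3) ≠ 0 := by positivity
  rw [h1, h2, h3, h4]
  field_simp
  ring

theorem stepG {n k : ℕ} (h : Ok n k) : 2 * (2 * (n : ℚ) + 1) * ((k - (n + 3)) * t (n + 3) k) +
      (n + 3) * ((k - n) * t n k) =
    2 * (2 * (n : ℚ) + 1) / (n + 1) * ((-8 * (k + 1) ^ 2 + (13 * n + 25) * (k + 1) -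
      (5 * n ^ 2 + 20 * n + 19)) * V n (k + 1)) -
    2 * (2 * (n : ℚ) + 1) / (n + 1) * ((-8 * k ^ 2 + (13 * n + 25) * k -
      (5 * n ^ 2 + 20 * n + 19)) * V n k) := by
  obtain ⟨w, h1, h2, h3, h4⟩ := rel' h
  have b1 : ((n : ℚ) + 1) ≠ 0 := by positivity
  have b2 : ((n : ℚ) + 2) ≠ 0 := by positivity
  have b3 : ((n : ℚ) + 3) ≠ 0 := by positivity
  rw [h1, h2, h3, h4]
  field_simp
  ring

/-- certificate for the third weight -/
def R3 (n k : ℚ) : ℚ := (k - 1) * (-8 * k ^ 3 + (21 * n + 42) * k ^ 2 - (18 * n ^ 2 + 72 * n + 70) * k +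
  (5 * n ^ 3 + 30 * n ^ 2 + 59 * n + 38)) / ((k - n - 1) * (k - n - 2) * (k - n - 3))

theorem stepA {n k : ℕ} (h : Ok n k) (hk : k < n) : 2 * (2 * (n : ℚ) + 1) * (n + 2) *
      (k / (k - (n + 3)) * t (n + 3) k) + (n + 1) * (n + 3) * (k / (k - n) * t n k) =
    2 * (2 * (n : ℚ) + 1) * (R3 n (k + 1) * V n (k + 1)) - 2 * (2 * (n : ℚ) + 1) * (R3 n k * V n k) := by
  obtain ⟨w, h1, h2, h3, h4⟩ := rel' h
  have b1 : ((n : ℚ) + 1) ≠ 0 := by positivity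
  have b2 : ((n : ℚ) + 2) ≠ 0 := by positivity
  have b3 : ((n : ℚ) + 3) ≠ 0 := by positivity
  obtain ⟨m, hm⟩ : ∃ m, n = k + 1 + m := ⟨n - (k + 1), by omega⟩
  have hmq : (n : ℚ) = k + 1 + m := by rw [hm]; push_cast; ring
  rw [h1, h2, h3, h4, R3, R3]
  have e0 : (k : ℚ) - n = -(m + 1) := by rw [hmq]; ring
  have e1 : (k : ℚ) - n - 1 = -(m + 2) := by rw [hmq]; ring
  have e2 : (k : ℚ) - n - 2 = -(m + 3) := by rw [hmq]; ring
  have e3 : (k : ℚ) - n - 3 = -(m + 4) := by rw [hmq]; ring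
  have e4 : (k : ℚ) - (n + 3) = -(m + 4) := by rw [hmq]; ring
  have e5 : (k : ℚ) + 1 - n - 1 = -(m + 1) := by rw [hmq]; ring
  have e6 : (k : ℚ) + 1 - n - 2 = -(m + 2) := by rw [hmq]; ring
  have e7 : (k : ℚ) + 1 - n - 3 = -(m + 3) := by rw [hmq]; ring
  have c1 : ((m : ℚ) + 1) ≠ 0 := by positivity
  have c2 : ((m : ℚ) + 2) ≠ 0 := by positivity
  have c3 : ((m : ℚ) + 3) ≠ 0 := by positivity
  have c4 : ((m : ℚ) + 4) ≠ 0 := by positivity
  rw [e1, e2, e3, e4, e5, e6, e7, e0, hmq]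
  rw [hmq] at b1 b2 b3
  field_simp
  ring

end Pool.Agent.K3h4.H48
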