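import Mathlib
import Pool.Agent.K3h4.H48.Ident

set_option autoImplicit false

/-!
Closed forms of the three terminating sums.
-/

namespace Pool.Agent.K3h4.H48

open Finset

/-- weighted sum of all terms -/
def S (c : ℕ → ℚ) (n : ℕ) : ℚ := ∑ k ∈ range (n / 2 + 1), c k * t n k

theorem S_ext (c : ℕ → ℚ) (n N : ℕ) (h : n / 2 < N) : ∑ k ∈ range N, c k * t n k = S c n := by
  rw [S, ← sum_subset (range_subset_range.2 (show n / 2 + 1 ≤ N by omega))]
  intro k _ hk
  rw [t_van (by have := mt mem_range.2 hk; omega), mul_zero]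

theorem V_zero (n : ℕ) : V n 0 = 0 := by simp [V]

theorem V_van {n k : ℕ} (h : n + 3 < 2 * k) : V n k = 0 := by rw [V, t_van h, mul_zero]

/-- admissible `n` -/
def Adm (n : ℕ) : Prop := n % 3 ≠ 1 ∨ 8 ≤ n

theorem Adm.ok {n k : ℕ} (h : Adm n) (hk : k < (n + 3) / 2 + 1) : Ok n k := by
  rcases h with h | h
  · exact Or.inl h
  · exact Or.inr (by omega)

def wF : ℕ → ℚ := fun _ => 1
def wG (n : ℕ) : ℕ → ℚ := fun k => (k : ℚ) - n
def wA (n : ℕ) : ℕ → ℚ := fun k => (k : ℚ) / (k - n)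

theorem tele (a g : ℕ → ℚ) (N : ℕ) (h : ∀ k ∈ range N, a k = g (k + 1) - g k) (h0 : g 0 = 0) (hN : g N = 0) :
    ∑ k ∈ range N, a k = 0 := by
  rw [sum_congr rfl h, sum_range_sub, h0, hN, sub_zero]

theorem recF {n : ℕ} (h : Adm n) : 2 * (2 * (n : ℚ) + 1) * S wF (n + 3) + (n + 1) * S wF n = 0 := by
  have h1 := S_ext wF (n + 3) ((n + 3) / 2 + 1) (by omega)
  have h2 := S_ext wF n ((n + 3) / 2 + 1) (by omega)
  rw [← h1, ← h2, mul_sum, mul_sum, ← sum_add_distrib]
  refine tele _ (fun j : ℕ => 2 * (2 * (n : ℚ) + 1) / (n + 3) * ((5 * n + 11 - 8 * j) * V n j)) _ (fun k hk => ?_) ?_ ?_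
  · have := stepF (h.ok (mem_range.1 hk))
    simp only [wF, one_mul]
    push_cast
    exact this
  · simp only [V_zero, mul_zero]
  · simp only [V_van (show n + 3 < 2 * ((n + 3) / 2 + 1) by omega), mul_zero]

theorem recG {n : ℕ} (h : Adm n) : 2 * (2 * (n : ℚ) + 1) * S (wG (n + 3)) (n + 3) +
    (n + 3) * S (wG n) n = 0 := by
  have h1 := S_ext (wG (n + 3)) (n + 3) ((n + 3) / 2 + 1) (by omega)
  have h2 := S_ext (wG n) n ((n + 3) / 2 + 1) (by omega)
  rw [← h1, ← h2, mul_sum, mul_sum, ← sum_add_distrib]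
  refine tele _ (fun j : ℕ => 2 * (2 * (n : ℚ) + 1) / (n + 1) * ((-8 * (j : ℚ) ^ 2 + (13 * n + 25) * j - (5 * n ^ 2 + 20 * n + 19)) * V n j)) _ (fun k hk => ?_) ?_ ?_
  · have := stepG (h.ok (mem_range.1 hk))
    simp only [wG]
    push_cast
    exact this
  · simp only [V_zero, mul_zero]
  · simp only [V_van (show n + 3 < 2 * ((n + 3) / 2 + 1) by omega), mul_zero]

theorem recA {n : ℕ} (h : Adm n) (hn : 4 ≤ n) : 2 * (2 * (n : ℚ) + 1) * (n + 2) * S (wA (n + 3)) (n + 3) +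
    (n + 1) * (n + 3) * S (wA n) n = 0 := by
  have h1 := S_ext (wA (n + 3)) (n + 3) ((n + 3) / 2 + 1) (by omega)
  have h2 := S_ext (wA n) n ((n + 3) / 2 + 1) (by omega)
  rw [← h1, ← h2, mul_sum, mul_sum, ← sum_add_distrib]
  refine tele _ (fun j : ℕ => 2 * (2 * (n : ℚ) + 1) * (R3 n j * V n j)) _ (fun k hk => ?_) ?_ ?_
  · have := stepA (h.ok (mem_range.1 hk)) (by have := mem_range.1 hk; omega)
    simp only [wA]
    push_cast
    exact this
  · simp only [V_zero, mul_zero]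
  · simp only [V_van (show n + 3 < 2 * ((n + 3) / 2 + 1) by omega), mul_zero]

/-! ### small cases -/

theorem S1 (c : ℕ → ℚ) : S c 1 = c 0 := by simp [S, t]
theorem S0 (c : ℕ → ℚ) : S c 0 = c 0 := by simp [S, t]
theorem S2 (c : ℕ → ℚ) : S c 2 = c 0 - c 1 := by
  simp [S, t, sum_range_succ]; norm_num; ring
theorem S3 (c : ℕ → ℚ) : S c 3 = c 0 - 3 / 2 * c 1 := by
  simp [S, t, sum_range_succ]; norm_num; ring
theorem S4 (c : ℕ → ℚ) : S c 4 = c 0 - 2 * c 1 + 2 / 3 * c 2 := by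
  simp [S, t, sum_range_succ, prod_range_succ]; norm_num; ring
theorem S5 (c : ℕ → ℚ) : S c 5 = c 0 - 5 / 2 * c 1 + 3 / 2 * c 2 := by
  simp [S, t, sum_range_succ, prod_range_succ]; norm_num; ring
theorem S6 (c : ℕ → ℚ) : S c 6 = c 0 - 3 * c 1 + 18 / 7 * c 2 - 3 / 7 * c 3 := by
  simp [S, t, sum_range_succ, prod_range_succ]; norm_num; ring
theorem S7 (c : ℕ → ℚ) : S c 7 = c 0 - 7 / 2 * c 1 + 35 / 9 * c 2 - 35 / 27 * c 3 := by
  simp [S, t, sum_range_succ, prod_range_succ]; norm_num; ring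
theorem S10 (c : ℕ → ℚ) : S c 10 = c 0 - 5 * c 1 + 28 / 3 * c 2 - 70 / 9 * c 3 + 70 / 27 * c 4 - 14 / 81 * c 5 := by
  simp [S, t, sum_range_succ, prod_range_succ]; norm_num; ring

/-! ### closed forms -/

def Q1 (m : ℕ) : ℚ := ∏ i ∈ range m, (3 * (i : ℚ) + 1)
def Q2 (m : ℕ) : ℚ := ∏ i ∈ range m, (3 * (i : ℚ) + 2)
def Q4 (m : ℕ) : ℚ := ∏ i ∈ range m, (3 * (i : ℚ) + 4)
def DD (n : ℕ) : ℚ := ∏ i ∈ range n, (2 - 2 * (n : ℚ) + 3 * i)

theorem Fval0 (r : ℕ) : S wF (3 * r) * (3 ^ r * r.factorial * Q1 (2 * r)) = (-1) ^ r * (3 * r).factorial := by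
  induction r with
  | zero => rw [mul_zero, S0]; simp [wF, Q1]
  | succ r ih =>
    have h := recF (n := 3 * r) (Or.inl (by omega))
    push_cast at h
    have e1 : Q1 (2 * (r + 1)) = Q1 (2 * r) * (6 * r + 1) * (6 * r + 4) := by
      rw [show 2 * (r + 1) = 2 * r + 1 + 1 by ring, Q1, prod_range_succ, prod_range_succ, ← Q1]
      push_cast; ring
    have e2 : ((3 * (r + 1)).factorial : ℚ) = (3 * r + 3) * (3 * r + 2) * (3 * r + 1) * (3 * r).factorial := by
      rw [show 3 * (r + 1) = 3 * r + 1 + 1 + 1 by ring, Nat.factorial_succ, Nat.factorial_succ, Nat.factorial_succ]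
      push_cast; ring
    rw [e1, e2, Nat.factorial_succ r, show 3 * (r + 1) = 3 * r + 3 by ring, pow_succ, pow_succ]
    push_cast
    linear_combination (3 * ((r : ℚ) + 1) * (3 * r + 2) * (3 ^ r * r.factorial * Q1 (2 * r))) * h -
      (3 * (r : ℚ) + 3) * (3 * r + 2) * (3 * r + 1) * ih

theorem Fval1 (m : ℕ) : S wF (3 * m + 1) * (3 ^ m * (2 * m).factorial) = (-1) ^ m * m.factorial * Q2 m := by
  induction m with
  | zero => rw [mul_zero, zero_add, S1]; simp [wF, Q2]
  | succ m ih =>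
    rcases (show m = 0 ∨ m = 1 ∨ m = 2 ∨ 3 ≤ m by omega) with h0 | h0 | h0 | h0
    · subst h0; rw [show 3 * (0 + 1) + 1 = 4 by norm_num, S4]
      simp [wF, Q2, prod_range_succ, Nat.factorial]; norm_num
    · subst h0; rw [show 3 * (1 + 1) + 1 = 7 by norm_num, S7]
      simp [wF, Q2, prod_range_succ, Nat.factorial]; norm_num
    · subst h0; rw [show 3 * (2 + 1) + 1 = 10 by norm_num, S10]
      simp [wF, Q2, prod_range_succ, Nat.factorial]; norm_num
    · have h := recF (n := 3 * m + 1) (Or.inr (by omega))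
      push_cast at h
      have e2 : ((2 * (m + 1)).factorial : ℚ) = (2 * m + 2) * (2 * m + 1) * (2 * m).factorial := by
        rw [show 2 * (m + 1) = 2 * m + 1 + 1 by ring, Nat.factorial_succ, Nat.factorial_succ]
        push_cast; ring
      rw [Q2, prod_range_succ, ← Q2, e2, Nat.factorial_succ m,
        show 3 * (m + 1) + 1 = 3 * m + 1 + 3 by ring, pow_succ, pow_succ]
      push_cast
      linear_combination (((m : ℚ) + 1) * (3 ^ m * (2 * m).factorial)) * h -
        ((m : ℚ) + 1) * (3 * m + 2) * ih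

theorem Fval2 (m : ℕ) : S wF (3 * m + 2) = 0 := by
  induction m with
  | zero => rw [mul_zero, zero_add, S2]; simp [wF]
  | succ m ih =>
    have h := recF (n := 3 * m + 2) (Or.inl (by omega))
    rw [ih] at h
    push_cast at h
    rw [show 3 * (m + 1) + 2 = 3 * m + 2 + 3 by ring]
    have : (2 * (2 * (3 * (m : ℚ) + 2) + 1)) ≠ 0 := by positivity
    rw [mul_zero, add_zero] at h
    exact (mul_eq_zero.1 h).resolve_left this

theorem Gval0 (r : ℕ) : S (wG (3 * r)) (3 * r) = 0 := by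
  induction r with
  | zero => rw [mul_zero, S0]; simp [wG]
  | succ r ih =>
    have h := recG (n := 3 * r) (Or.inl (by omega))
    rw [ih] at h
    push_cast at h
    rw [show 3 * (r + 1) = 3 * r + 3 by ring]
    have : (2 * (2 * (3 * (r : ℚ)) + 1)) ≠ 0 := by positivity
    rw [mul_zero, add_zero] at h
    exact (mul_eq_zero.1 h).resolve_left this

theorem Gval1 (m : ℕ) : S (wG (3 * m + 1)) (3 * m + 1) * (3 ^ m * (2 * m).factorial) =
    -((-1) ^ m * m.factorial * Q4 m) := by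
  induction m with
  | zero => rw [mul_zero, zero_add, S1]; simp [wG, Q4]
  | succ m ih =>
    rcases (show m = 0 ∨ m = 1 ∨ m = 2 ∨ 3 ≤ m by omega) with h0 | h0 | h0 | h0
    · subst h0; rw [show 3 * (0 + 1) + 1 = 4 by norm_num, S4]
      simp [wG, Q4, prod_range_succ, Nat.factorial]; norm_num
    · subst h0; rw [show 3 * (1 + 1) + 1 = 7 by norm_num, S7]
      simp [wG, Q4, prod_range_succ, Nat.factorial]; norm_num
    · subst h0; rw [show 3 * (2 + 1) + 1 = 10 by norm_num, S10]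
      simp [wG, Q4, prod_range_succ, Nat.factorial]; norm_num
    · have h := recG (n := 3 * m + 1) (Or.inr (by omega))
      push_cast at h
      have e2 : ((2 * (m + 1)).factorial : ℚ) = (2 * m + 2) * (2 * m + 1) * (2 * m).factorial := by
        rw [show 2 * (m + 1) = 2 * m + 1 + 1 by ring, Nat.factorial_succ, Nat.factorial_succ]
        push_cast; ring
      rw [Q4, prod_range_succ, ← Q4, e2, Nat.factorial_succ m,
        show 3 * (m + 1) + 1 = 3 * m + 1 + 3 by ring, pow_succ, pow_succ]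
      push_cast
      linear_combination (((m : ℚ) + 1) * (3 ^ m * (2 * m).factorial)) * h -
        ((m : ℚ) + 1) * (3 * m + 4) * ih

theorem Aval1 (m : ℕ) : S (wA (3 * m + 1)) (3 * m + 1) = 0 := by
  induction m with
  | zero => rw [mul_zero, zero_add, S1]; simp [wA]
  | succ m ih =>
    rcases (show m = 0 ∨ m = 1 ∨ m = 2 ∨ 3 ≤ m by omega) with h0 | h0 | h0 | h0
    · subst h0; rw [show 3 * (0 + 1) + 1 = 4 by norm_num, S4]
      simp [wA]; norm_num
    · subst h0; rw [show 3 * (1 + 1) + 1 = 7 by norm_num, S7]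
      simp [wA]; norm_num
    · subst h0; rw [show 3 * (2 + 1) + 1 = 10 by norm_num, S10]
      simp [wA]; norm_num
    · have h := recA (n := 3 * m + 1) (Or.inr (by omega)) (by omega)
      rw [ih] at h
      push_cast at h
      rw [show 3 * (m + 1) + 1 = 3 * m + 1 + 3 by ring]
      have : (2 * (2 * (3 * (m : ℚ) + 1) + 1) * (3 * (m : ℚ) + 1 + 2)) ≠ 0 := by positivity
      rw [mul_zero, add_zero] at h
      exact (mul_eq_zero.1 h).resolve_left this

theorem DD_rec (n : ℕ) : DD (n + 3) = (2 * (n : ℚ) + 4) * (2 * n + 1) * (n + 2) * DD n := by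
  rw [DD, DD, prod_range_succ', prod_range_succ']
  have e : ∏ k ∈ range (n + 1), (2 - 2 * (((n + 3 : ℕ)) : ℚ) + 3 * ((k + 1 + 1 : ℕ) : ℚ)) =
      ∏ k ∈ range (n + 1), (2 - 2 * (n : ℚ) + 3 * k) := prod_congr rfl fun k _ => by push_cast; ring
  rw [e, prod_range_succ]
  push_cast
  ring

theorem Aval (n : ℕ) : 2 ≤ n → n % 3 ≠ 1 → S (wA n) n * DD n = -((-1) ^ n * n.factorial) := by
  induction n using Nat.strong_induction_on with
  | _ n ih =>
    intro h2 h3
    rcases (show n = 2 ∨ n = 3 ∨ n = 5 ∨ n = 6 ∨ 7 ≤ n by omega) with h0 | h0 | h0 | h0 | h0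
    · subst h0; rw [S2]; simp [wA, DD, prod_range_succ, Nat.factorial]; norm_num
    · subst h0; rw [S3]; simp [wA, DD, prod_range_succ, Nat.factorial]; norm_num
    · subst h0; rw [S5]; simp [wA, DD, prod_range_succ, Nat.factorial]; norm_num
    · subst h0; rw [S6]; simp [wA, DD, prod_range_succ, Nat.factorial]; norm_num
    · obtain ⟨m, rfl⟩ : ∃ m, n = m + 3 := ⟨n - 3, by omega⟩
      have ih := ih m (by omega) (by omega) (by omega)
      have h := recA (n := m) (Or.inl (by omega)) (by omega)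
      rw [DD_rec, Nat.factorial_succ, Nat.factorial_succ, Nat.factorial_succ, pow_succ, pow_succ, pow_succ]
      push_cast
      linear_combination (((m : ℚ) + 2) * DD m) * h - ((m : ℚ) + 1) * (m + 3) * (m + 2) * ih

end Pool.Agent.K3h4.H48
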