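import Mathlib
import Pool.Agent.K3h4.H48.Closed
import Pool.Agent.R488.Cub.Lin

set_option autoImplicit false

/-!
The `p`-adic families of truncated sums.
-/

namespace Pool.Agent.K3h4.H48

open Finset Pool.Agent.R439.PL Pool.Agent.R439.PL.S4 Pool.Agent.R488.Tri Pool.Agent.R488.Cub

/-- denominators -/
def dn (u : ℚ) (k : ℕ) : ℚ := ∏ i ∈ range k, (4 * (1 + (i : ℚ)) * (3 * (1 + i) - u))

/-- terms of the family -/
def pt (u : ℚ) (k : ℕ) : ℚ := (∏ l ∈ range (2 * k), (2 * (l : ℚ) + 1 - u)) * (dn u k)⁻¹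

theorem pt_eq (u : ℚ) (k : ℕ) : pt u k = ∏ i ∈ range k, ((4 * (i : ℚ) + 1 - u) * (4 * i + 3 - u) *
    (4 * (1 + (i : ℚ)) * (3 * (1 + i) - u))⁻¹) := by
  induction k with
  | zero => simp [pt, dn]
  | succ k ih =>
    rw [prod_range_succ, ← ih, pt, pt, dn, dn, show 2 * (k + 1) = 2 * k + 1 + 1 by ring, prod_range_succ,
      prod_range_succ, prod_range_succ, mul_inv]
    push_cast
    ring

theorem pt_t (n k : ℕ) : pt (2 * n + 1) k = t n k := by
  rw [pt_eq, t]
  refine prod_congr rfl fun i _ => ?_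
  have a : (1 + (i : ℚ)) ≠ 0 := by positivity
  have e1 : (3 * (1 + (i : ℚ)) - (2 * n + 1)) = 2 - 2 * n + 3 * i := by ring
  rw [e1, mul_inv, mul_inv, div_eq_mul_inv, mul_inv]
  ring

theorem pt_0 (k : ℕ) : pt 0 k = ((4 * k).choose (2 * k) : ℚ) * ((2 * k).choose k : ℚ) / 48 ^ k := by
  have h : pt 0 k = ((4 * k).factorial : ℚ) / ((2 * k).factorial * k.factorial * k.factorial * 48 ^ k) := by
    induction k with
    | zero => simp [pt, dn]
    | succ k ih =>
      have e : pt 0 (k + 1) = pt 0 k * ((4 * (k : ℚ) + 1) * (4 * k + 3) * (4 * (1 + (k : ℚ)) * (3 * (1 + k)))⁻¹) := by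
        rw [pt_eq, pt_eq, prod_range_succ]; simp
      rw [e, ih, show 4 * (k + 1) = 4 * k + 1 + 1 + 1 + 1 by ring, show 2 * (k + 1) = 2 * k + 1 + 1 by ring,
        Nat.factorial_succ (4 * k + 1 + 1 + 1), Nat.factorial_succ (4 * k + 1 + 1), Nat.factorial_succ (4 * k + 1),
        Nat.factorial_succ (4 * k), Nat.factorial_succ (2 * k + 1), Nat.factorial_succ (2 * k),
        Nat.factorial_succ k, pow_succ]
      push_cast
      have a1 : ((2 * k).factorial : ℚ) ≠ 0 := by positivity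
      have a2 : (k.factorial : ℚ) ≠ 0 := by positivity
      have a3 : (1 + (k : ℚ)) ≠ 0 := by positivity
      have a4 : (48 : ℚ) ^ k ≠ 0 := by positivity
      have a5 : (2 * (k : ℚ) + 1) ≠ 0 := by positivity
      have a6 : (2 * (k : ℚ) + 1 + 1) ≠ 0 := by positivity
      have a7 : ((k : ℚ) + 1) ≠ 0 := by positivity
      field_simp
      ring
  rw [h]
  have h1 := Nat.cast_add_choose ℚ (a := 2 * k) (b := 2 * k)
  have h2 := Nat.cast_add_choose ℚ (a := k) (b := k)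
  rw [← two_mul, ← mul_assoc] at h1
  rw [← two_mul] at h2
  norm_num at h1 h2
  rw [h1, h2]
  have a1 : ((2 * k).factorial : ℚ) ≠ 0 := by positivity
  have a2 : (k.factorial : ℚ) ≠ 0 := by positivity
  field_simp

variable {p : ℕ} [hp : Fact p.Prime]

theorem interp13 {f : ℚ → ℚ} (h : Lin p f) (h2 : U p 2) : EQ p 2 (f 0) ((3 * f p - f (3 * p)) / 2) := by
  obtain ⟨d, hd, h⟩ := h
  have m3 : (3 : ℚ) ∈ Zp p := by exact_mod_cast nat_mem (p := p) 3
  have h1 := h p I_p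
  have h3 := h (3 * p) (I_p.mulL m3)
  have h4 := ((((EQ.refl (k := 2) m3).mul h1).sub h3).mul (EQ.refl (k := 2) h2.2.2)).symm
  have e : (3 * (f 0 + d * p) - (f 0 + d * (3 * p))) * (2 : ℚ)⁻¹ = f 0 := by ring
  rw [e, ← div_eq_mul_inv] at h4
  exact h4

theorem lin_dn (h3 : 3 < p) {k : ℕ} (hk : k < p) : Lin p (fun u => (dn u k)⁻¹) := by
  have u4 : U p (4 : ℚ) := by
    have := U_nat (p := p) (k := 2) (by norm_num) (by omega)
    have h := this.mul this
    norm_num at h; exact h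
  have u3 : U p (3 : ℚ) := by exact_mod_cast U_nat (p := p) (k := 3) (by norm_num) h3
  have hu : ∀ i ∈ range k, U p (4 * (1 + (i : ℚ)) * (3 * (1 + i))) := by
    intro i hi
    have hi' := mem_range.1 hi
    have u1 := U_nat (p := p) (k := 1 + i) (by omega) (by omega)
    push_cast at u1
    exact (u4.mul u1).mul (u3.mul u1)
  have h1 : Lin p (fun u => ∏ i ∈ range k, (4 * (1 + (i : ℚ)) * (3 * (1 + i)) + (-(4 * (1 + (i : ℚ)))) * u)) := by
    refine Lin.prod fun i hi => Lin.affine (hu i hi).2.1 ?_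
    exact neg_mem (mul_mem u4.2.1 (add_mem (one_mem _) (nat_mem i)))
  have h2 := h1.inv (by
    simp only [mul_zero, add_zero]
    exact U.prod hu)
  have e : (fun u : ℚ => (∏ i ∈ range k, (4 * (1 + (i : ℚ)) * (3 * (1 + i)) + (-(4 * (1 + (i : ℚ)))) * u))⁻¹) =
      fun u => (dn u k)⁻¹ := by
    funext u
    rw [dn]
    congr 1
    exact prod_congr rfl fun i _ => by ring
  rwa [e] at h2

theorem lin_lin (a : ℕ) : Lin p (fun u => (2 * (a : ℚ) + 1 - u)) := by
  have h := Lin.affine (p := p) (a := 2 * (a : ℚ) + 1) (b := -1)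
    (add_mem (mul_mem (by exact_mod_cast nat_mem (p := p) 2) (nat_mem a)) (one_mem _)) (neg_mem (one_mem _))
  have e : (fun u : ℚ => 2 * (a : ℚ) + 1 + -1 * u) = fun u => 2 * (a : ℚ) + 1 - u := by funext u; ring
  rwa [e] at h

theorem lin_pt (h3 : 3 < p) {k : ℕ} (hk : k < p) : Lin p (fun u => pt u k) := by
  have h1 : Lin p (fun u => ∏ l ∈ range (2 * k), (2 * (l : ℚ) + 1 - u)) := Lin.prod fun l _ => lin_lin l
  exact h1.mul (lin_dn h3 hk)

/-- the plain family -/
def FF (p : ℕ) (u : ℚ) : ℚ := ∑ k ∈ range p, pt u k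

/-- the weighted family -/
def GG (p : ℕ) (u : ℚ) : ℚ := ∑ k ∈ range p, (2 * (k : ℚ) + 1 - u) * pt u k

theorem lin_FF (h3 : 3 < p) : Lin p (FF p) := Lin.sum fun _ hk => lin_pt h3 (mem_range.1 hk)

theorem lin_GG (h3 : 3 < p) : Lin p (GG p) := Lin.sum fun k hk => (lin_lin k).mul (lin_pt h3 (mem_range.1 hk))

theorem FF_n {n : ℕ} (h : n / 2 < p) : FF p (2 * n + 1) = S wF n := by
  rw [FF, ← S_ext wF n p h]
  exact sum_congr rfl fun k _ => by rw [pt_t, wF, one_mul]

theorem GG_n {n : ℕ} (h : n / 2 < p) : GG p (2 * n + 1) = 2 * S (wG n) n := by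
  rw [GG, ← S_ext (wG n) n p h, mul_sum]
  exact sum_congr rfl fun k _ => by rw [pt_t, wG]; ring

/-! ### The third family -/

/-- the term `k = n`, `p = 2n+1`, without the factor `p - u` -/
def rest (n : ℕ) (u : ℚ) : ℚ := (∏ l ∈ range n, (2 * (l : ℚ) + 1 - u)) *
  (∏ l ∈ range (n - 1), (2 * ((n + 1 + l : ℕ) : ℚ) + 1 - u)) * (dn u n)⁻¹

theorem rest_pt (n : ℕ) (hn : 0 < n) (u : ℚ) : pt u n = (2 * (n : ℚ) + 1 - u) * rest n u := by
  obtain ⟨m, rfl⟩ : ∃ m, n = m + 1 := ⟨n - 1, by omega⟩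
  rw [pt, rest, show 2 * (m + 1) = (m + 1) + (m + 1) by ring, prod_range_add,
    prod_range_succ' (fun x => 2 * ((m + 1 + x : ℕ) : ℚ) + 1 - u) m, show m + 1 - 1 = m by omega]
  have e : ∏ k ∈ range m, (2 * ((m + 1 + (k + 1) : ℕ) : ℚ) + 1 - u) =
      ∏ l ∈ range m, (2 * ((m + 1 + 1 + l : ℕ) : ℚ) + 1 - u) := prod_congr rfl fun i _ => by push_cast; ring
  rw [e]
  push_cast
  ring

theorem lin_rest (h3 : 3 < p) {n : ℕ} (hn : n < p) : Lin p (fun u => rest n u) := by
  have h1 : Lin p (fun u => ∏ l ∈ range n, (2 * (l : ℚ) + 1 - u)) := Lin.prod fun l _ => lin_lin l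
  have h2 : Lin p (fun u => ∏ l ∈ range (n - 1), (2 * ((n + 1 + l : ℕ) : ℚ) + 1 - u)) :=
    Lin.prod fun l _ => lin_lin (n + 1 + l)
  exact (h1.mul h2).mul (lin_dn h3 hn)

/-- terms of the third family -/
def ta (p k : ℕ) (u : ℚ) : ℚ := if 2 * k + 1 = p then 2 * (k : ℚ) * rest k u else
  2 * (k : ℚ) * (2 * (k : ℚ) + 1 - u)⁻¹ * pt u k

def AA (p : ℕ) (u : ℚ) : ℚ := ∑ k ∈ range p, ta p k u

theorem lin_AA (h3 : 3 < p) : Lin p (AA p) := by
  refine Lin.sum fun k hk => ?_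
  have hk' := mem_range.1 hk
  have m2k : 2 * (k : ℚ) ∈ Zp p := mul_mem (by exact_mod_cast nat_mem (p := p) 2) (nat_mem k)
  have hc : Lin p (fun _ => 2 * (k : ℚ)) := by
    have h := Lin.affine (p := p) m2k (zero_mem _)
    simpa using h
  by_cases h : 2 * k + 1 = p
  · have e : ta p k = fun u => 2 * (k : ℚ) * rest k u := by funext u; rw [ta, if_pos h]
    rw [e]
    exact hc.mul (lin_rest h3 hk')
  · have e : ta p k = fun u => 2 * (k : ℚ) * (2 * (k : ℚ) + 1 - u)⁻¹ * pt u k := by funext u; rw [ta, if_neg h]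
    rw [e]
    have hpo : p % 2 = 1 := by
      rcases hp.out.eq_two_or_odd with h | h
      · omega
      · exact h
    have hu := two_add_one_U (p := p) (n := p / 2) (by omega) hk' h
    exact (hc.mul ((lin_lin k).inv (by simpa using hu))).mul (lin_pt h3 hk')

theorem ta_off {k : ℕ} {u : ℚ} (hk : 0 < k) (h : (2 * (k : ℚ) + 1 - u) ≠ 0) :
    ta p k u = 2 * (k : ℚ) * (2 * (k : ℚ) + 1 - u)⁻¹ * pt u k := by
  rw [ta]
  split_ifs with h1
  · rw [rest_pt k hk]
    field_simp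
  · rfl

theorem AA_0 : AA p 0 = ∑ k ∈ range p, ((4 * k).choose (2 * k + 1) : ℚ) * ((2 * k).choose k : ℚ) / 48 ^ k := by
  refine sum_congr rfl fun k _ => ?_
  rcases Nat.eq_zero_or_pos k with h | h
  · subst h
    rw [ta]; split_ifs <;> simp
  · have a : (2 * (k : ℚ) + 1 - 0) ≠ 0 := by rw [sub_zero]; positivity
    rw [ta_off h a, pt_0]
    have h1 := Nat.choose_succ_right_eq (4 * k) (2 * k)
    have h2 : ((4 * k).choose (2 * k + 1) : ℚ) * (2 * k + 1) = ((4 * k).choose (2 * k) : ℚ) * (2 * k) := by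
      have : (((4 * k).choose (2 * k + 1) * (2 * k + 1) : ℕ) : ℚ) =
        (((4 * k).choose (2 * k) * (4 * k - 2 * k) : ℕ) : ℚ) := by rw [h1]
      rw [show 4 * k - 2 * k = 2 * k by omega] at this
      push_cast at this
      exact this
    rw [sub_zero] at a ⊢
    field_simp
    linear_combination (-((2 * k).choose k : ℚ)) * h2

/-- the value at `3p` -/
theorem AA_3 {n : ℕ} (h : n / 2 < p) (hn : p ≤ n) : AA p (2 * n + 1) = S (wA n) n := by
  rw [AA, ← S_ext (wA n) n p h]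
  refine sum_congr rfl fun k hk => ?_
  have hk' := mem_range.1 hk
  rcases Nat.eq_zero_or_pos k with h0 | h0
  · subst h0
    rw [ta, wA]; split_ifs <;> simp
  · obtain ⟨m, hm⟩ : ∃ m, n = k + 1 + m := ⟨n - (k + 1), by omega⟩
    have e : (2 * (k : ℚ) + 1 - (2 * n + 1)) = -(2 * (m + 1)) := by rw [hm]; push_cast; ring
    have e' : (k : ℚ) - n = -(m + 1) := by rw [hm]; push_cast; ring
    have a : ((m : ℚ) + 1) ≠ 0 := by positivity
    rw [ta_off h0 (by rw [e]; exact neg_ne_zero.2 (mul_ne_zero two_ne_zero a)), pt_t, wA, e, e']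
    field_simp

theorem rest_val (n : ℕ) (hn : 0 < n) (h0 : DD n ≠ 0) : 2 * (n : ℚ) * rest n (2 * n + 1) * DD n = (-1) ^ n * n.factorial := by
  obtain ⟨m, rfl⟩ : ∃ m, n = m + 1 := ⟨n - 1, by omega⟩
  have e1 : ∏ l ∈ range (m + 1), (2 * (l : ℚ) + 1 - (2 * ((m + 1 : ℕ) : ℚ) + 1)) =
      (-2) ^ (m + 1) * (m + 1).factorial := by
    rw [← prod_range_reflect, ← prod_range_add_one_eq_factorial, Nat.cast_prod, ← card_range (m + 1),
      ← prod_const, card_range, ← prod_mul_distrib]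
    refine prod_congr rfl fun i hi => ?_
    have hi' := mem_range.1 hi
    rw [show m + 1 - 1 - i = m - i by omega, Nat.cast_sub (by omega)]
    push_cast
    ring
  have e2 : ∏ l ∈ range (m + 1 - 1), (2 * ((m + 1 + 1 + l : ℕ) : ℚ) + 1 - (2 * ((m + 1 : ℕ) : ℚ) + 1)) =
      2 ^ m * m.factorial := by
    rw [show m + 1 - 1 = m by omega, ← prod_range_add_one_eq_factorial, Nat.cast_prod, ← card_range m,
      ← prod_const, card_range, ← prod_mul_distrib]
    refine prod_congr rfl fun i _ => ?_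
    push_cast
    ring
  have e3 : dn (2 * ((m + 1 : ℕ) : ℚ) + 1) (m + 1) = 4 ^ (m + 1) * (m + 1).factorial * DD (m + 1) := by
    rw [dn, DD, ← prod_range_add_one_eq_factorial, Nat.cast_prod, ← card_range (m + 1), ← prod_const,
      card_range, ← prod_mul_distrib, ← prod_mul_distrib]
    refine prod_congr rfl fun i _ => ?_
    push_cast
    ring
  rw [rest, e1, e2, e3, mul_inv, mul_inv]
  have f1 : ((m + 1).factorial : ℚ) ≠ 0 := by positivity
  have f2 : (4 : ℚ) ^ (m + 1) ≠ 0 := by positivity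
  have e4 : (4 : ℚ) ^ (m + 1) = 2 * 2 ^ m * 2 ^ (m + 1) := by
    rw [show (4 : ℚ) = 2 * 2 by norm_num, mul_pow, pow_succ 2 m]; ring
  have e5 : ((-2 : ℚ)) ^ (m + 1) = (-1) ^ (m + 1) * 2 ^ (m + 1) := by rw [← mul_pow]; norm_num
  have e6 : ((m + 1).factorial : ℚ) = (m + 1) * m.factorial := by rw [Nat.factorial_succ]; push_cast; ring
  have f3 : (2 : ℚ) ^ m ≠ 0 := by positivity
  have f4 : (2 : ℚ) ^ (m + 1) ≠ 0 := by positivity
  have f5 : (m.factorial : ℚ) ≠ 0 := by positivity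
  have f6 : ((m : ℚ) + 1) ≠ 0 := by positivity
  rw [e4, e5, e6]
  push_cast
  field_simp

theorem DD_ne {n : ℕ} (h : n % 3 ≠ 1) : DD n ≠ 0 := by
  rw [DD]
  refine prod_ne_zero_iff.2 fun i _ h0 => ?_
  have h1 : (2 - 2 * (n : ℤ) + 3 * i) = 0 := by exact_mod_cast h0
  omega

/-- the value at `p` vanishes -/
theorem AA_1 {n : ℕ} (hpn : p = 2 * n + 1) (h2 : 2 ≤ n) (h3 : n % 3 ≠ 1) : AA p (2 * n + 1) = 0 := by
  have h4 := Aval n h2 h3
  have h5 := rest_val n (by omega) (DD_ne h3)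
  have hD := DD_ne h3
  have h6 : AA p (2 * n + 1) = S (wA n) n + 2 * (n : ℚ) * rest n (2 * n + 1) := by
    rw [AA, ← S_ext (wA n) n p (by omega), ← add_sum_erase (range p) _ (mem_range.2 (show n < p by omega)),
      ← add_sum_erase (range p) (fun k => wA n k * t n k) (mem_range.2 (show n < p by omega)),
      t_van (show n < 2 * n by omega), mul_zero, zero_add, ta, if_pos hpn.symm, add_comm]
    congr 1
    refine sum_congr rfl fun k hk => ?_
    have hkn := (mem_erase.1 hk).1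
    rw [ta, if_neg (by omega), pt_t, wA]
    have e : (2 * (k : ℚ) + 1 - (2 * n + 1)) = 2 * (k - n) := by ring
    have a : ((k : ℚ) - n) ≠ 0 := by
      intro h0
      apply hkn
      have h1 : (k : ℚ) = n := by linear_combination h0
      exact_mod_cast h1
    rw [e]
    field_simp
  rw [h6]
  apply mul_right_cancel₀ hD
  rw [add_mul, h4, h5]
  ring

end Pool.Agent.K3h4.H48
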