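import Mathlib
import Pool.Agent.K3h4.H48.Fam
import Pool.Agent.R488.Tw.Main
import Pool.Agent.R488.Tw.J
import Pool.Agent.R488.Tw.QF

set_option autoImplicit false

/-!
Values of the families modulo `p^2`.
-/

namespace Pool.Agent.K3h4.H48

open Finset Pool.Agent.R439.PL Pool.Agent.R439.PL.S4 Pool.Agent.R488.Tri Pool.Agent.R488.Cub

variable {p j : ℕ} [hp : Fact p.Prime]

/-- replace a factor `1 + s` on the left -/
theorem solve1 {x y s : ℚ} (hx : x ∈ Zp p) (hs : I p 1 s) (h : EQ p 2 (x * (1 + s)) y) :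
    EQ p 2 x (y * (1 - s)) := by
  have h1 := h.mul (EQ.refl (k := 2) (sub_mem (one_mem (Zp p)) hs.mem))
  refine EQ.trans ?_ h1
  refine ⟨hx, h1.1, ?_⟩
  have e : x - x * (1 + s) * (1 - s) = (s * s) * x := by ring
  rw [e]
  exact (hs.mul hs).mulR hx

/-- `Q1 (2j)` -/
theorem Q1_eq (hpj : p = 6 * j + 1) {b : ℚ} (mb : b ∈ Zp p)
    (E2 : EQ p 2 (p * H (2 * j)) (-3 * b)) :
    EQ p 2 (Q1 (2 * j)) (9 ^ j * (2 * j).factorial * (1 + b)) := by
  have hpq : (p : ℚ) = 6 * j + 1 := by exact_mod_cast hpj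
  have u3 := U3 hpj
  have m9 : (9 : ℚ) ^ j ∈ Zp p := by exact_mod_cast pow_mem (nat_mem (p := p) 9) j
  have Ip3 : I p 1 ((p : ℚ) / 3) := by rw [div_eq_mul_inv]; exact I_p.mulR u3.2.2
  have h := prodH (p := p) (a := 2 * j) (b := 2 * j) (le_refl _) (by omega) Ip3
  rw [prod_choose _ _ (le_refl _), Nat.choose_self, Nat.sub_self, show H 0 = 0 by simp [H], sub_zero,
    Nat.cast_one, one_mul] at h
  have e1 : Q1 (2 * j) = 9 ^ j * ∏ i ∈ range (2 * j), (((2 * j : ℕ) : ℚ) - i - p / 3) := by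
    rw [Q1, show (9 : ℚ) ^ j = ∏ _i ∈ range (2 * j), (-3 : ℚ) by
      rw [prod_const, card_range, pow_mul]; norm_num, ← prod_mul_distrib]
    refine prod_congr rfl fun i _ => ?_
    rw [hpq]; push_cast; ring
  rw [e1, mul_assoc]
  refine EQ.mul (EQ.refl m9) (h.trans ?_)
  refine EQ.mul (EQ.refl (nat_mem _)) ?_
  have m13 : (-(1 / 3) : ℚ) ∈ Zp p := by rw [one_div]; exact neg_mem u3.2.2
  have h2 := EQ_lin m13 E2
  have x1 : 1 + -(1 / 3) * (p * H (2 * j)) = 1 - p / 3 * H (2 * j) := by ring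
  have x2 : 1 + -(1 / 3) * (-3 * b) = 1 + b := by ring
  rwa [x1, x2] at h2

/-- the value at `p` -/
theorem F1_eq (hpj : p = 6 * j + 1) {b C3 : ℚ} (hC3 : C3 = ((3 * j).choose j : ℚ)) (hb : b = (-27) ^ j - 1)
    (Ib : I p 1 b) (E2 : EQ p 2 (p * H (2 * j)) (-3 * b)) (mF : FF p p ∈ Zp p) :
    EQ p 2 (FF p p) (C3 * (1 - b) * (1 - b)) := by
  have hpq : (p : ℚ) = 2 * ((3 * j : ℕ) : ℚ) + 1 := by
    have : (p : ℚ) = 6 * j + 1 := by exact_mod_cast hpj
    rw [this]; push_cast; ring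
  have hF : FF p p = S wF (3 * j) := by
    rw [hpq]; exact FF_n (by omega)
  have h0 := Fval0 j
  rw [← hF] at h0
  have hQ := Q1_eq (p := p) hpj Ib.mem E2
  have u3 := U3 hpj
  have uf1 := U_fac (p := p) (k := j) (by omega)
  have uf2 := U_fac (p := p) (k := 2 * j) (by omega)
  have h1 := (EQ.refl (k := 2) (mul_mem mF (mul_mem (pow_mem u3.2.1 j) uf1.2.1))).mul hQ
  have e0 : FF p p * (3 ^ j * j.factorial) * Q1 (2 * j) = (-1) ^ j * (3 * j).factorial := by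
    rw [← h0]; ring
  rw [e0] at h1
  have hC := Nat.choose_mul_factorial_mul_factorial (show j ≤ 3 * j by omega)
  rw [show 3 * j - j = 2 * j by omega] at hC
  have hC' : ((3 * j).factorial : ℚ) = C3 * j.factorial * (2 * j).factorial := by
    rw [hC3]; exact_mod_cast hC.symm
  rw [hC'] at h1
  -- cancel the factorials
  have hs : ((-1 : ℚ)) ^ j * (-1) ^ j = 1 := by rw [← mul_pow]; norm_num
  have h2 : EQ p 2 (j.factorial * (2 * j).factorial * C3)
      (j.factorial * (2 * j).factorial * (FF p p * (1 + b) * (1 + b))) := by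
    have h3 := (EQ.refl (k := 2) (neg_mem' (p := p) j)).mul h1
    have x1 : (-1 : ℚ) ^ j * ((-1) ^ j * (C3 * j.factorial * (2 * j).factorial)) =
        j.factorial * (2 * j).factorial * C3 := by
      linear_combination (C3 * j.factorial * (2 * j).factorial) * hs
    have x2 : (-1 : ℚ) ^ j * (FF p p * (3 ^ j * j.factorial) * (9 ^ j * (2 * j).factorial * (1 + b))) =
        j.factorial * (2 * j).factorial * (FF p p * (1 + b) * (1 + b)) := by
      have : (1 + b) = (-1) ^ j * (3 ^ j * 9 ^ j) := by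
        rw [hb, ← mul_pow, ← mul_pow]; norm_num
      nth_rewrite 3 [this]
      ring
    rwa [x1, x2] at h3
  have mC3 : C3 ∈ Zp p := by rw [hC3]; exact nat_mem _
  have m1b : (1 + b) ∈ Zp p := add_mem (one_mem _) Ib.mem
  have h3 := EQ_cancel (uf1.mul uf2) mC3 (mul_mem (mul_mem mF m1b) m1b) h2
  have h4 := solve1 (mul_mem mF m1b) Ib h3.symm
  exact solve1 mF Ib h4

/-- `Q2 (3j)` and the value at `3p` -/
theorem F3_eq (hpj : p = 6 * j + 1) {a b C3 : ℚ} (hC3 : C3 = ((3 * j).choose j : ℚ))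
    (Ia : I p 1 a) (Ib : I p 1 b) (E2 : EQ p 2 (p * H (2 * j)) (-3 * b))
    (E1 : EQ p 2 (p * H j) (-2 * a - 3 * b)) (mF : FF p (3 * p) ∈ Zp p) :
    EQ p 2 (FF p (3 * p)) (C3 * (1 - 4 / 3 * a) * (1 - 3 * b)) := by
  have hpq : (p : ℚ) = 6 * j + 1 := by exact_mod_cast hpj
  have hF : FF p (3 * p) = S wF (3 * (3 * j) + 1) := by
    have : 3 * (p : ℚ) = 2 * ((3 * (3 * j) + 1 : ℕ) : ℚ) + 1 := by rw [hpq]; push_cast; ring
    rw [this]; exact FF_n (by omega)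
  have h0 := Fval1 (3 * j)
  rw [← hF] at h0
  have u2 := U2 hpj
  have u3 := U3 hpj
  have u4 := U4 hpj
  have Ip3 : I p 1 (2 * (p : ℚ) / 3) := by
    have : 2 * (p : ℚ) / 3 = p * (2 * 3⁻¹) := by ring
    rw [this]; exact I_p.mulR (mul_mem u2.2.1 u3.2.2)
  have h := prodH (p := p) (a := 4 * j) (b := 3 * j) (by omega) (by omega) Ip3
  rw [prod_choose _ _ (by omega), show 4 * j - 3 * j = j by omega] at h
  have m27 : (-27 : ℚ) ^ j ∈ Zp p := pow_mem (by exact_mod_cast int_mem (p := p) (-27)) _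
  have e1 : Q2 (3 * j) = (-27) ^ j * ∏ i ∈ range (3 * j), (((4 * j : ℕ) : ℚ) - i - 2 * p / 3) := by
    rw [Q2, show (-27 : ℚ) ^ j = ∏ _i ∈ range (3 * j), (-3 : ℚ) by
      rw [prod_const, card_range, pow_mul]; norm_num, ← prod_mul_distrib]
    refine prod_congr rfl fun i _ => ?_
    rw [hpq]; push_cast; ring
  have hE4 : EQ p 2 (p * H (4 * j)) (-3 * b) := by
    refine EQ.trans ⟨mul_mem p_mem (H_mem (by omega)), E2.1, ?_⟩ E2
    have : p * H (4 * j) - p * H (2 * j) = p * (H (4 * j) - H (2 * j)) := by ring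
    rw [this]
    exact (I_p (p := p)).mul (H42 hpj)
  have m23 : (-(2 / 3) : ℚ) ∈ Zp p := by rw [div_eq_mul_inv]; exact neg_mem (mul_mem u2.2.1 u3.2.2)
  have h2 : EQ p 2 (1 - 2 * p / 3 * (H (4 * j) - H j)) (1 - 4 / 3 * a) := by
    have h2 := EQ_lin m23 (hE4.sub E1)
    have x1 : 1 + -(2 / 3) * (p * H (4 * j) - p * H j) = 1 - 2 * p / 3 * (H (4 * j) - H j) := by ring
    have x2 : 1 + -(2 / 3) * (-3 * b - (-2 * a - 3 * b)) = 1 - 4 / 3 * a := by ring
    rwa [x1, x2] at h2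
  have hQ : EQ p 2 (Q2 (3 * j)) ((-27) ^ j * (((4 * j).choose (3 * j) : ℚ) * (3 * j).factorial *
      (1 - 4 / 3 * a))) := by
    rw [e1]
    refine EQ.mul (EQ.refl m27) (h.trans ?_)
    exact EQ.mul (EQ.refl (mul_mem (nat_mem _) (nat_mem _))) h2
  -- combine
  have hs : ((-1 : ℚ)) ^ (3 * j) * (-1) ^ j = 1 := by
    rw [← pow_add, show 3 * j + j = 2 * (2 * j) by ring, pow_mul]; norm_num
  have h3 : EQ p 2 (FF p (3 * p) * (3 ^ (3 * j) * (2 * (3 * j)).factorial))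
      ((-1) ^ (3 * j) * (3 * j).factorial * ((-27) ^ j * (((4 * j).choose (3 * j) : ℚ) * (3 * j).factorial *
      (1 - 4 / 3 * a)))) := by
    rw [h0]
    exact EQ.mul (EQ.refl (mul_mem (neg_mem' _) (nat_mem _))) hQ
  have e27 : (-27 : ℚ) ^ j = (-1) ^ j * 3 ^ (3 * j) := by
    rw [pow_mul 3 3 j, ← mul_pow]; norm_num
  -- C(4j,3j) (3j)!^2 C(6j,2j) = C3 (6j)!
  have hc : ((4 * j).choose (3 * j) : ℚ) * (3 * j).factorial * (3 * j).factorial *
      ((6 * j).choose (2 * j) : ℚ) = C3 * (2 * (3 * j)).factorial := by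
    have c1 := Nat.choose_mul_factorial_mul_factorial (show 3 * j ≤ 4 * j by omega)
    have c2 := Nat.choose_mul_factorial_mul_factorial (show 2 * j ≤ 6 * j by omega)
    have c3 := Nat.choose_mul_factorial_mul_factorial (show j ≤ 3 * j by omega)
    rw [show 4 * j - 3 * j = j by omega] at c1
    rw [show 6 * j - 2 * j = 4 * j by omega] at c2
    rw [show 3 * j - j = 2 * j by omega] at c3
    have d1 : ((4 * j).choose (3 * j) : ℚ) * (3 * j).factorial * j.factorial = (4 * j).factorial := by exact_mod_cast c1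
    have d2 : ((6 * j).choose (2 * j) : ℚ) * (2 * j).factorial * (4 * j).factorial = (6 * j).factorial := by exact_mod_cast c2
    have d3 : C3 * j.factorial * (2 * j).factorial = (3 * j).factorial := by rw [hC3]; exact_mod_cast c3
    have f1 : (j.factorial : ℚ) ≠ 0 := by positivity
    rw [show 2 * (3 * j) = 6 * j by ring, ← d2, ← d1]
    have : ((4 * j).choose (3 * j) : ℚ) * (3 * j).factorial * (3 * j).factorial * ((6 * j).choose (2 * j) : ℚ) =
        ((4 * j).choose (3 * j) : ℚ) * (3 * j).factorial * (C3 * j.factorial * (2 * j).factorial) *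
          ((6 * j).choose (2 * j) : ℚ) := by rw [d3]
    rw [this]; ring
  have mC : ((6 * j).choose (2 * j) : ℚ) ∈ Zp p := nat_mem _
  have mC3 : C3 ∈ Zp p := by rw [hC3]; exact nat_mem _
  have m43a : (1 - 4 / 3 * a) ∈ Zp p := h2.2.1
  have uu : U p ((3 : ℚ) ^ (3 * j) * (2 * (3 * j)).factorial) :=
    (u3.pow _).mul (U_fac (p := p) (by omega))
  have h4 : EQ p 2 (FF p (3 * p) * ((6 * j).choose (2 * j) : ℚ)) (C3 * (1 - 4 / 3 * a)) := by
    refine EQ_cancel uu (mul_mem mF mC) (mul_mem mC3 m43a) ?_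
    have h5 := h3.mul (EQ.refl (k := 2) mC)
    have x1 : FF p (3 * p) * (3 ^ (3 * j) * (2 * (3 * j)).factorial) * ((6 * j).choose (2 * j) : ℚ) =
        3 ^ (3 * j) * (2 * (3 * j)).factorial * (FF p (3 * p) * ((6 * j).choose (2 * j) : ℚ)) := by ring
    have x2 : (-1) ^ (3 * j) * (3 * j).factorial * ((-27) ^ j * (((4 * j).choose (3 * j) : ℚ) * (3 * j).factorial *
      (1 - 4 / 3 * a))) * ((6 * j).choose (2 * j) : ℚ) =
        3 ^ (3 * j) * (2 * (3 * j)).factorial * (C3 * (1 - 4 / 3 * a)) := by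
      rw [e27]
      linear_combination (((-1) ^ (3 * j) * (-1) ^ j * 3 ^ (3 * j) * (1 - 4 / 3 * a))) * hc +
        (3 ^ (3 * j) * (2 * (3 * j)).factorial * (C3 * (1 - 4 / 3 * a))) * hs
    rwa [x1, x2] at h5
  -- replace C(6j,2j)
  have h6 : EQ p 2 ((6 * j).choose (2 * j) : ℚ) (1 + 3 * b) := by
    have := choose_pm2 (p := p) (k := 2 * j) (by omega)
    rw [show p - 1 = 6 * j by omega, pow_mul] at this
    norm_num at this
    refine this.trans ?_
    have h2 := EQ_lin (neg_mem (one_mem (Zp p))) E2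
    have x1 : 1 + -1 * (p * H (2 * j)) = 1 - p * H (2 * j) := by ring
    have x2 : 1 + -1 * (-3 * b) = 1 + 3 * b := by ring
    rwa [x1, x2] at h2
  have h7 := ((EQ.refl (k := 2) mF).mul h6).symm.trans h4
  exact solve1 mF (Ib.mulL u3.2.1) h7

/-- the sum modulo `p^2`, in terms of `C(4j,2j)` -/
theorem S_eq (hpj : p = 6 * j + 1) {a b C4 C3 : ℚ} (hC3 : C3 = ((3 * j).choose j : ℚ))
    (hb : b = (-27) ^ j - 1) (Ia : I p 1 a) (Ib : I p 1 b)
    (E2 : EQ p 2 (p * H (2 * j)) (-3 * b)) (E1 : EQ p 2 (p * H j) (-2 * a - 3 * b))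
    (e1 : EQ p 2 C4 (16 ^ j * C3 * (1 + -(3 / 2) * b))) :
    EQ p 2 (FF p 0) (C4 * ((16 ^ j)⁻¹ * (1 + 2 / 3 * a))) := by
  have hj := j_pos hpj
  have u2 := U2 hpj
  have u3 := U3 hpj
  have u4 := U4 hpj
  have hl := lin_FF (p := p) (by omega)
  have h0 := interp13 hl u2
  obtain ⟨d, hd, hl'⟩ := hl
  have m1 : FF p p ∈ Zp p := (hl' p I_p).1
  have m3 : FF p (3 * p) ∈ Zp p := (hl' (3 * p) (I_p.mulL u3.2.1)).1
  have h1 := F1_eq hpj hC3 hb Ib E2 m1
  have h3 := F3_eq hpj hC3 Ia Ib E2 E1 m3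
  have mC3 : C3 ∈ Zp p := by rw [hC3]; exact nat_mem _
  have u16 : U p ((16 : ℚ) ^ j) := by
    have : (16 : ℚ) = 4 * 4 := by norm_num
    rw [this]; exact (u4.mul u4).pow j
  have h4 : EQ p 2 (FF p 0) ((3 * (C3 * (1 - b) * (1 - b)) - C3 * (1 - 4 / 3 * a) * (1 - 3 * b)) * 2⁻¹) := by
    refine h0.trans ?_
    rw [div_eq_mul_inv]
    exact (((EQ.refl (k := 2) u3.2.1).mul h1).sub h3).mul (EQ.refl u2.2.2)
  have m23a : (1 + 2 / 3 * a) ∈ Zp p := by
    refine add_mem (one_mem _) (mul_mem ?_ Ia.mem)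
    rw [div_eq_mul_inv]; exact mul_mem u2.2.1 u3.2.2
  have h5 := e1.mul (EQ.refl (k := 2) (mul_mem u16.2.2 m23a))
  have a16 := u16.1
  have x1 : 16 ^ j * C3 * (1 + -(3 / 2) * b) * ((16 ^ j)⁻¹ * (1 + 2 / 3 * a)) =
      C3 * (1 + -(3 / 2) * b) * (1 + 2 / 3 * a) := by
    field_simp
  rw [x1] at h5
  refine h4.trans (EQ.trans ⟨h4.2.1, h5.2.1, ?_⟩ h5.symm)
  have e : (3 * (C3 * (1 - b) * (1 - b)) - C3 * (1 - 4 / 3 * a) * (1 - 3 * b)) * 2⁻¹ -
      C3 * (1 + -(3 / 2) * b) * (1 + 2 / 3 * a) = (b * b) * (C3 * 3 * 2⁻¹) - (a * b) * C3 := by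
    ring
  rw [e]
  exact ((Ib.mul Ib).mulR (mul_mem (mul_mem mC3 u3.2.1) u2.2.2)).sub ((Ia.mul Ib).mulR mC3)

end Pool.Agent.K3h4.H48
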