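import Mathlib
import Pool.Agent.K3h4.H48.Val

set_option autoImplicit false

/-!
The representation `p = x^2 + 3 y^2`, the weighted sum, and the case `p = 2` modulo `3`.
-/

namespace Pool.Agent.K3h4.H48

open Finset Pool.Agent.R439.PL Pool.Agent.R439.PL.S4 Pool.Agent.R488.Tri Pool.Agent.R488.Cub
  Pool.Agent.R488.Tw Pool.Agent.R488.Nin

variable {p j : ℕ} [hp : Fact p.Prime]

/-- the value of `C(4j,2j)` in terms of the representation `p = x^2 + 3y^2` -/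
theorem rep (hpj : p = 6 * j + 1) : ∃ x y : ℤ, (p : ℤ) = x ^ 2 + 3 * y ^ 2 ∧ x % 3 = 1 ∧ U p (x : ℚ) ∧
    EQ p 2 (((4 * j).choose (2 * j) : ℚ) * ((16 ^ j)⁻¹ * (1 + 2 / 3 * (64 ^ j - 1)))) (2 * x - p / (2 * x)) := by
  obtain ⟨a, b, C4, C3, C2, hC4, hC3, hC2, ha, hb, Ia, Ib, uC4, mC3, mC2, E3, E2, E1, e1, e6⟩ :=
    facts harm hpj
  have u2 := U2 hpj
  have u3 := U3 hpj
  have u4 := U4 hpj
  obtain ⟨A, B, t, hAB, hA, ht, hJS⟩ := twJ p j hpj
  have hf := twF p j hpj a ha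
  obtain ⟨l, hl⟩ : ∃ l : ℚ, l = (A : ℚ) + B * t := ⟨_, rfl⟩
  rw [← hl] at hJS
  have mt : (t : ℚ) ∈ Zp p := int_mem t
  have mA : (A : ℚ) ∈ Zp p := int_mem A
  have mB : (B : ℚ) ∈ Zp p := int_mem B
  have It : I p 2 ((t : ℚ) ^ 2 + 3) := by
    have := I_of_dvd (p := p) ht
    push_cast at this
    exact this
  have c1 : EQ p 2 (C4 * ((16 ^ j)⁻¹ * (1 + 2 / 3 * a))) (-l) := by
    have h1 := (JS_eq (p := p) hpj)
    rw [← hC4] at h1
    have h2 := (h1.mul (EQ.refl (k := 2) hf.1)).symm.trans hJS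
    have h3 := ((EQ.refl (k := 2) uC4.2.1).mul hf).symm
    have h4 := h3.trans ((h2.neg).symm.symm.trans (EQ.refl h2.neg.2.1) |>.symm.symm |> fun h => by
      have e : -(-C4 * (256 : ℚ) ^ (j * p)) = C4 * 256 ^ (j * p) := by ring
      rw [e] at h
      exact h)
    exact h4
  have I23a : I p 1 (2 / 3 * a) := by
    have : 2 / 3 * a = (2 * 3⁻¹) * a := by ring
    rw [this]; exact Ia.mulL (mul_mem u2.2.1 u3.2.2)
  have ul : U p l := by
    have u16 : U p ((16 : ℚ) ^ j) := by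
      have : (16 : ℚ) = 4 * 4 := by norm_num
      rw [this]; exact (u4.mul u4).pow j
    have h1 : U p (C4 * ((16 ^ j)⁻¹ * (1 + 2 / 3 * a))) := uC4.mul (u16.inv.mul (U_small I23a))
    have h2 := U_neg (c1.unit (by norm_num) h1)
    rwa [neg_neg] at h2
  obtain ⟨μ, hμ⟩ : ∃ μ : ℚ, μ = (A : ℚ) - B * t := ⟨_, rfl⟩
  have mμ : μ ∈ Zp p := by rw [hμ]; exact sub_mem mA (mul_mem mB mt)
  have hlμ : I p 2 (l * μ - p) := by
    have e : l * μ - p = -(B : ℚ) * B * ((t : ℚ) ^ 2 + 3) := by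
      have h : ((p : ℤ) : ℚ) = (A : ℚ) ^ 2 + 3 * (B : ℚ) ^ 2 := by exact_mod_cast congrArg (Int.cast (R := ℚ)) hAB
      have h' : (p : ℚ) = (A : ℚ) ^ 2 + 3 * (B : ℚ) ^ 2 := by exact_mod_cast h
      rw [hl, hμ, h']; ring
    rw [e]; exact It.mulL (mul_mem (neg_mem mB) mB)
  have Iμ : I p 1 μ := by
    refine ul.cancel ?_
    have e : l * μ = (l * μ - p) + p := by ring
    rw [e]; exact (hlμ.mono (by norm_num)).add I_p
  have uA2 : U p (2 * (A : ℚ)) := by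
    have e : 2 * (A : ℚ) = l + μ := by rw [hl, hμ]; ring
    refine U_of_not_I (mul_mem u2.2.1 mA) fun h => ?_
    have h1 : I p 1 l := by
      have e2 : l = 2 * (A : ℚ) - μ := by rw [e]; ring
      rw [e2]; exact h.sub Iμ
    exact ul.not_I (by norm_num) h1
  have uA : U p (A : ℚ) := by
    have := u2.inv.mul uA2
    rwa [← mul_assoc, inv_mul_cancel₀ u2.1, one_mul] at this
  refine ⟨-A, B, by rw [hAB]; ring, by omega, ?_, ?_⟩
  · push_cast; exact U_neg uA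
  · rw [← ha, ← hC4]
    have mfin : (2 : ℚ) * ((-A : ℤ) : ℚ) - p / (2 * ((-A : ℤ) : ℚ)) ∈ Zp p := by
      have e : (2 : ℚ) * ((-A : ℤ) : ℚ) - p / (2 * ((-A : ℤ) : ℚ)) = -(2 * (A : ℚ)) + p * (2 * (A : ℚ))⁻¹ := by
        push_cast
        have := uA.1
        field_simp
        ring
      rw [e]
      exact add_mem (neg_mem uA2.2.1) (mul_mem p_mem uA2.2.2)
    refine c1.trans ⟨c1.2.1, mfin, uA2.cancel ?_⟩
    have hA0 := uA.1
    have e : 2 * (A : ℚ) * (-l - (2 * ((-A : ℤ) : ℚ) - p / (2 * ((-A : ℤ) : ℚ)))) = (l * μ - p) + μ * μ := by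
      have e2 : 2 * (A : ℚ) = l + μ := by rw [hl, hμ]; ring
      have e3 : 2 * (A : ℚ) * (-l - (2 * ((-A : ℤ) : ℚ) - p / (2 * ((-A : ℤ) : ℚ)))) =
          2 * (A : ℚ) * (2 * A - l) - p := by
        push_cast
        field_simp
        ring
      rw [e3, e2]; ring
    rw [e]
    exact hlμ.add (Iμ.mul Iμ)

/-- uniqueness of `x` -/
theorem rep_uniq {x y x' y' : ℤ} (h : (p : ℤ) = x ^ 2 + 3 * y ^ 2) (h' : (p : ℤ) = x' ^ 2 + 3 * y' ^ 2)
    (hx : x % 3 = 1) (hx' : x' % 3 = 1) : x = x' := by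
  have hy : y ^ 2 = y' ^ 2 := by
    rcases twQ p hp.out x y x' y' h h' with h1 | h1 <;> rw [h1]; ring
  have h2 : x ^ 2 = x' ^ 2 := by linarith
  rcases sq_eq_sq_iff_eq_or_eq_neg.1 h2 with h3 | h3
  · exact h3
  · omega

/-- the sum for `p = 1` modulo `6` -/
theorem S_x (hpj : p = 6 * j + 1) {x y : ℤ} (h : (p : ℤ) = x ^ 2 + 3 * y ^ 2) (hx : x % 3 = 1) :
    U p (x : ℚ) ∧ EQ p 2 (FF p 0) (2 * x - p / (2 * x)) := by
  obtain ⟨a, b, C4, C3, C2, hC4, hC3, hC2, ha, hb, Ia, Ib, uC4, mC3, mC2, E3, E2, E1, e1, e6⟩ :=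
    facts harm hpj
  obtain ⟨x', y', h1, h2, h3, h4⟩ := rep (p := p) hpj
  have hxx : x' = x := rep_uniq h1 h h2 hx
  subst hxx
  refine ⟨h3, (S_eq hpj hC3 hb Ia Ib E2 E1 e1).trans ?_⟩
  rw [hC4, ha]; exact h4

/-! ### the weighted sum -/

theorem Q4_eq (hpj : p = 6 * j + 1) : ∃ Y : ℚ, Q4 (3 * j) = p * Y ∧
    EQ p 1 (3 * Y) (-(3 ^ (3 * j) * (2 * j - 1).factorial * j.factorial)) := by
  obtain ⟨i, rfl⟩ : ∃ i, j = i + 1 := ⟨j - 1, by have := j_pos hpj; omega⟩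
  have hpq : (p : ℚ) = 6 * (i + 1) + 1 := by exact_mod_cast hpj
  refine ⟨(∏ l ∈ range (2 * i + 1), (3 * (l : ℚ) + 4)) * ∏ l ∈ range (i + 1), (3 * ((2 * i + 1 + (l + 1) : ℕ) : ℚ) + 4),
    ?_, ?_⟩
  · rw [Q4, show 3 * (i + 1) = (2 * i + 1) + (i + 1 + 1) by ring, prod_range_add,
      prod_range_succ' (fun x => 3 * ((2 * i + 1 + x : ℕ) : ℚ) + 4), hpq]
    push_cast; ring
  · have u3 := U3 hpj
    have h1 : EQ p 1 (∏ l ∈ range (2 * i + 1), (3 * (l : ℚ) + 4))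
        (∏ l ∈ range (2 * i + 1), (-3 * ((2 * i + 1 - 1 - l + 1 : ℕ) : ℚ))) := by
      refine EQ.prod fun l hl => ?_
      have hl' := mem_range.1 hl
      refine ⟨add_mem (mul_mem u3.2.1 (nat_mem l)) (by exact_mod_cast nat_mem (p := p) 4),
        mul_mem (neg_mem u3.2.1) (nat_mem _), ?_⟩
      have e : (3 * (l : ℚ) + 4) - (-3 * ((2 * i + 1 - 1 - l + 1 : ℕ) : ℚ)) = p := by
        rw [show 2 * i + 1 - 1 - l + 1 = 2 * i + 1 - l by omega, Nat.cast_sub (by omega), hpq]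
        push_cast; ring
      rw [e]; exact I_p
    have e1 : ∏ l ∈ range (2 * i + 1), (-3 * ((2 * i + 1 - 1 - l + 1 : ℕ) : ℚ)) =
        (-3) ^ (2 * i + 1) * (2 * i + 1).factorial := by
      rw [prod_range_reflect (fun l => -3 * ((l + 1 : ℕ) : ℚ)), prod_mul_distrib, prod_const, card_range,
        ← Nat.cast_prod, prod_range_add_one_eq_factorial]
    have h2 : EQ p 1 (∏ l ∈ range (i + 1), (3 * ((2 * i + 1 + (l + 1) : ℕ) : ℚ) + 4))
        (∏ l ∈ range (i + 1), (3 * ((l + 1 : ℕ) : ℚ))) := by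
      refine EQ.prod fun l _ => ?_
      refine ⟨add_mem (mul_mem u3.2.1 (nat_mem _)) (by exact_mod_cast nat_mem (p := p) 4),
        mul_mem u3.2.1 (nat_mem _), ?_⟩
      have e : 3 * ((2 * i + 1 + (l + 1) : ℕ) : ℚ) + 4 - 3 * ((l + 1 : ℕ) : ℚ) = p := by
        rw [hpq]; push_cast; ring
      rw [e]; exact I_p
    have e2 : ∏ l ∈ range (i + 1), (3 * ((l + 1 : ℕ) : ℚ)) = 3 ^ (i + 1) * (i + 1).factorial := by
      rw [prod_mul_distrib, prod_const, card_range, ← Nat.cast_prod, prod_range_add_one_eq_factorial]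
    rw [e1] at h1
    rw [e2] at h2
    have h3 := (EQ.refl (k := 1) u3.2.1).mul (h1.mul h2)
    have e3 : (3 : ℚ) * ((-3) ^ (2 * i + 1) * (2 * i + 1).factorial * (3 ^ (i + 1) * (i + 1).factorial)) =
        -(3 ^ (3 * (i + 1)) * (2 * (i + 1) - 1).factorial * (i + 1).factorial) := by
      have p1 : (-3 : ℚ) ^ (2 * i + 1) = -3 * 9 ^ i := by rw [pow_succ, pow_mul]; norm_num; ring
      have p2 : (3 : ℚ) ^ (3 * (i + 1)) = 27 * (9 ^ i * 3 ^ i) := by
        rw [pow_mul, pow_succ, ← mul_pow]; norm_num; ring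
      have p3 : (3 : ℚ) ^ (i + 1) = 3 * 3 ^ i := by rw [pow_succ]; ring
      rw [show 2 * (i + 1) - 1 = 2 * i + 1 by omega, p1, p2, p3]
      ring
    rwa [e3] at h3

theorem G3_eq (hpj : p = 6 * j + 1) {C3 : ℚ} (hC3 : C3 = ((3 * j).choose j : ℚ)) :
    EQ p 2 (GG p (3 * p) * C3) (-2 * p) := by
  have hpq : (p : ℚ) = 6 * j + 1 := by exact_mod_cast hpj
  have hj := j_pos hpj
  obtain ⟨g, hg⟩ : ∃ g : ℚ, g = S (wG (3 * (3 * j) + 1)) (3 * (3 * j) + 1) := ⟨_, rfl⟩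
  have hG : GG p (3 * p) = 2 * g := by
    have : 3 * (p : ℚ) = 2 * ((3 * (3 * j) + 1 : ℕ) : ℚ) + 1 := by rw [hpq]; push_cast; ring
    rw [this, hg]; exact GG_n (by omega)
  have h0 := Gval1 (3 * j)
  rw [← hg] at h0
  obtain ⟨Y, hY, hY2⟩ := Q4_eq (p := p) hpj
  rw [hY] at h0
  have u2 := U2 hpj
  have u3 := U3 hpj
  have mC3 : C3 ∈ Zp p := by rw [hC3]; exact nat_mem _
  have mY3 := hY2.1
  have mY : Y ∈ Zp p := by
    have := mul_mem u3.2.2 mY3
    rwa [← mul_assoc, inv_mul_cancel₀ u3.1, one_mul] at this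
  have uu : U p ((3 : ℚ) ^ (3 * j) * (2 * (3 * j)).factorial) :=
    (u3.pow _).mul (U_fac (p := p) (by omega))
  -- `g` is divisible by `p`
  obtain ⟨z, hz⟩ : ∃ z : ℚ, z = -((-1) ^ (3 * j) * (3 * j).factorial * Y) *
    ((3 : ℚ) ^ (3 * j) * (2 * (3 * j)).factorial)⁻¹ := ⟨_, rfl⟩
  have mz : z ∈ Zp p := by
    rw [hz]; exact mul_mem (neg_mem (mul_mem (mul_mem (neg_mem' _) (nat_mem _)) mY)) uu.2.2
  have hgz : g = p * z := by
    rw [hz, ← mul_assoc, ← div_eq_mul_inv, eq_div_iff uu.1, h0]; ring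
  -- the value of `z C3` modulo `p`
  have hs : ((-1 : ℚ)) ^ (3 * j) * (-1) ^ (3 * j) = 1 := by rw [← mul_pow]; norm_num
  have hch := choose_pm1 (p := p) (3 * j) (by omega)
  rw [show p - 1 = 2 * (3 * j) by omega] at hch
  have key : EQ p 1 (z * C3) (-1) := by
    -- multiply by 3 * (2j) * 27^j (6j)!
    have u2j : U p (2 * (j : ℚ)) := by
      have := U_nat (p := p) (k := 2 * j) (by omega) (by omega)
      exact_mod_cast this
    have ubig : U p (((3 : ℚ) ^ (3 * j) * (2 * (3 * j)).factorial) * (2 * (j : ℚ))) := uu.mul u2j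
    have c3 := Nat.choose_mul_factorial_mul_factorial (show j ≤ 3 * j by omega)
    rw [show 3 * j - j = 2 * j by omega] at c3
    have d3 : C3 * j.factorial * (2 * j).factorial = (3 * j).factorial := by rw [hC3]; exact_mod_cast c3
    have c4 := Nat.choose_mul_factorial_mul_factorial (show 3 * j ≤ 2 * (3 * j) by omega)
    rw [show 2 * (3 * j) - 3 * j = 3 * j by omega] at c4
    have d4 : ((2 * (3 * j)).choose (3 * j) : ℚ) * (3 * j).factorial * (3 * j).factorial =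
      (2 * (3 * j)).factorial := by exact_mod_cast c4
    have f2 : (2 * (j : ℚ)) * ((2 * j - 1).factorial : ℚ) = (2 * j).factorial := by
      have := Nat.mul_factorial_pred (show 2 * j ≠ 0 by omega)
      exact_mod_cast this
    -- E1 : 3 z C3 27^j (6j)! 2j = 27^j (3j)!^2 (-1)^(3j)
    have h1 : EQ p 1 (3 * (z * C3 * (((3 : ℚ) ^ (3 * j) * (2 * (3 * j)).factorial) * (2 * (j : ℚ)))))
        ((-1) ^ (3 * j) * (3 ^ (3 * j) * ((3 * j).factorial * (3 * j).factorial))) := by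
      have h2 := hY2.neg.mul (EQ.refl (k := 1) (mul_mem (mul_mem (mul_mem (neg_mem' (p := p) (3 * j))
        (nat_mem (3 * j).factorial)) mC3) u2j.2.1))
      have x1 : -(3 * Y) * ((-1) ^ (3 * j) * (3 * j).factorial * C3 * (2 * (j : ℚ))) =
          3 * (z * C3 * (((3 : ℚ) ^ (3 * j) * (2 * (3 * j)).factorial) * (2 * (j : ℚ)))) := by
        rw [hz]
        have a1 := uu.1
        generalize ((3 : ℚ) ^ (3 * j) * (2 * (3 * j)).factorial) = w at a1 ⊢
        field_simp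
      have x2 : -(-(3 ^ (3 * j) * ((2 * j - 1).factorial : ℚ) * j.factorial)) *
          ((-1) ^ (3 * j) * (3 * j).factorial * C3 * (2 * (j : ℚ))) =
          (-1) ^ (3 * j) * (3 ^ (3 * j) * ((3 * j).factorial * (3 * j).factorial)) := by
        linear_combination ((-1) ^ (3 * j) * 3 ^ (3 * j) * (3 * j).factorial * C3 * j.factorial) * f2 +
          ((-1) ^ (3 * j) * 3 ^ (3 * j) * (3 * j).factorial) * d3
      rwa [x1, x2] at h2
    have hI := h1.2.2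
    have hI2 := hch.2.2
    -- conclude
    have h6j : 3 * (2 * (j : ℚ)) = p - 1 := by rw [hpq]; ring
    have uC : U p ((2 * (3 * j)).choose (3 * j) : ℚ) := C_unit (by omega) (by omega)
    have uf := U_fac (p := p) (k := 3 * j) (by omega)
    have uw : U p ((3 : ℚ) ^ (3 * j) * ((3 * j).factorial * (3 * j).factorial)) :=
      (u3.pow _).mul (uf.mul uf)
    refine ⟨mul_mem mz mC3, neg_mem (one_mem _), ?_⟩
    -- (z C3)(p-1) C - (-1)^(3j) ∈ I
    have h5 : I p 1 (z * C3 * (p - 1) * ((2 * (3 * j)).choose (3 * j) : ℚ) - (-1) ^ (3 * j)) := by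
      refine uw.cancel ?_
      have e : (3 : ℚ) ^ (3 * j) * ((3 * j).factorial * (3 * j).factorial) *
          (z * C3 * (p - 1) * ((2 * (3 * j)).choose (3 * j) : ℚ) - (-1) ^ (3 * j)) =
          3 * (z * C3 * (((3 : ℚ) ^ (3 * j) * (2 * (3 * j)).factorial) * (2 * (j : ℚ)))) -
          ((-1) ^ (3 * j) * (3 ^ (3 * j) * ((3 * j).factorial * (3 * j).factorial))) := by
        rw [← d4, ← h6j]; ring
      rw [e]; exact hI
    have h6 : I p 1 ((-1) ^ (3 * j) * (z * C3 + 1)) := by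
      have e : (-1 : ℚ) ^ (3 * j) * (z * C3 + 1) = -(z * C3 * (p - 1) * ((2 * (3 * j)).choose (3 * j) : ℚ) - (-1) ^ (3 * j)) -
          z * C3 * (((2 * (3 * j)).choose (3 * j) : ℚ) - (-1) ^ (3 * j)) +
          p * (z * C3 * ((2 * (3 * j)).choose (3 * j) : ℚ)) := by ring
      rw [e]
      exact (h5.neg.sub (hI2.mulL (mul_mem mz mC3))).add
        ((I_p (p := p)).mulR (mul_mem (mul_mem mz mC3) uC.2.1))
    have h7 := h6.mulL (neg_mem' (p := p) (3 * j))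
    rw [← mul_assoc, hs, one_mul] at h7
    have e : z * C3 - -1 = z * C3 + 1 := by ring
    rw [e]; exact h7
  rw [hG, hgz]
  have m2 := u2.2.1
  refine ⟨mul_mem (mul_mem m2 (mul_mem p_mem mz)) mC3, mul_mem (neg_mem m2) p_mem, ?_⟩
  have e : 2 * (p * z) * C3 - -2 * p = (p * (z * C3 - -1)) * 2 := by ring
  rw [e]
  exact ((I_p (p := p)).mul key.2.2).mulR m2

theorem T_x (hpj : p = 6 * j + 1) {x y : ℤ} (h : (p : ℤ) = x ^ 2 + 3 * y ^ 2) (hx : x % 3 = 1) :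
    EQ p 2 (∑ k ∈ range p, ((k : ℚ) + 1) * pt 0 k) x := by
  obtain ⟨ux, hS⟩ := S_x (p := p) hpj h hx
  have hpq : (p : ℚ) = 6 * j + 1 := by exact_mod_cast hpj
  have hj := j_pos hpj
  have u2 := U2 hpj
  have u3 := U3 hpj
  have hl := lin_GG (p := p) (by omega)
  have h0 := interp13 hl u2
  have e1 : GG p p = 0 := by
    have : (p : ℚ) = 2 * ((3 * j : ℕ) : ℚ) + 1 := by rw [hpq]; push_cast; ring
    rw [this, GG_n (by omega), Gval0]; ring
  obtain ⟨d, hd, hl'⟩ := hl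
  have m3 : GG p (3 * p) ∈ Zp p := (hl' (3 * p) (I_p.mulL u3.2.1)).1
  rw [e1, mul_zero, zero_sub] at h0
  obtain ⟨C3, hC3⟩ : ∃ C3 : ℚ, C3 = ((3 * j).choose j : ℚ) := ⟨_, rfl⟩
  have hg := G3_eq (p := p) hpj hC3
  have uC3 : U p C3 := by rw [hC3]; exact C_unit (by omega) (by omega)
  -- C3 = 2x modulo p
  obtain ⟨a, b, C4, C3', C2, hC4, hC3', hC2, ha, hb, Ia, Ib, uC4, mC3, mC2, E3, E2, E1, e1', e6⟩ :=
    facts harm hpj
  rw [← hC3] at hC3'
  subst hC3'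
  have hlF := lin_FF (p := p) (by omega)
  have mF3 : FF p p ∈ Zp p := by
    obtain ⟨d, hd, hl'⟩ := hlF
    exact (hl' p I_p).1
  have hF1 := F1_eq hpj hC3 hb Ib E2 mF3
  have hC3F : EQ p 1 C3' (FF p 0) := by
    obtain ⟨d, hd, hl'⟩ := hlF
    have h1 := hl' p I_p
    have mF0 : FF p 0 ∈ Zp p := hS.1
    have h2 : EQ p 1 (FF p 0 + d * p) (FF p 0) := ⟨h1.2.1, mF0, by
      have : FF p 0 + d * p - FF p 0 = p * d := by ring
      rw [this]; exact I_p.mulR hd⟩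
    have h3 : EQ p 1 C3' (C3' * (1 - b) * (1 - b)) := ⟨mC3, hF1.2.1, by
      have : C3' - C3' * (1 - b) * (1 - b) = b * (C3' * (2 - b)) := by ring
      rw [this]; exact Ib.mulR (mul_mem mC3 (sub_mem u2.2.1 Ib.mem))⟩
    exact (h3.trans (hF1.symm.mono (by norm_num))).trans ((h1.mono (by norm_num)).trans h2)
  have h2x : I p 1 (C3' - 2 * x) := by
    have h1 := (hC3F.trans (hS.mono (by norm_num))).2.2
    have e : C3' - 2 * x = (C3' - (2 * x - p / (2 * x))) - p * (2 * (x : ℚ))⁻¹ := by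
      rw [div_eq_mul_inv]; ring
    rw [e]
    exact h1.sub ((I_p (p := p)).mulR (u2.mul ux).2.2)
  -- GG 0 = p / (2x)
  have m2x := (u2.mul ux)
  have hG0 : EQ p 2 (GG p 0) (p / (2 * x)) := by
    have mG : GG p 0 ∈ Zp p := h0.1
    have mpx : (p : ℚ) / (2 * x) ∈ Zp p := by rw [div_eq_mul_inv]; exact mul_mem p_mem m2x.2.2
    refine ⟨mG, mpx, uC3.cancel (m2x.cancel ?_)⟩
    have a1 := m2x.1
    have e : 2 * (x : ℚ) * (C3' * (GG p 0 - p / (2 * x))) = 2 * x * C3' * (GG p 0 - -GG p (3 * p) / 2) -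
        x * (GG p (3 * p) * C3' - -2 * p) - p * (C3' - 2 * x) := by
      have ax := ux.1
      field_simp
      ring
    rw [e]
    refine ((h0.2.2.mulL (mul_mem m2x.2.1 mC3)).sub (hg.2.2.mulL ux.2.1)).sub ?_
    exact (I_p (p := p)).mul h2x
  have hsum : 2 * ∑ k ∈ range p, ((k : ℚ) + 1) * pt 0 k = GG p 0 + FF p 0 := by
    rw [GG, FF, mul_sum, ← sum_add_distrib]
    exact sum_congr rfl fun k _ => by ring
  have hfin := (hG0.add hS)
  rw [← hsum] at hfin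
  have e2 : (p : ℚ) / (2 * x) + (2 * x - p / (2 * x)) = 2 * x := by ring
  rw [e2] at hfin
  have mT : ∑ k ∈ range p, ((k : ℚ) + 1) * pt 0 k ∈ Zp p := by
    have := mul_mem u2.2.2 hfin.1
    rwa [← mul_assoc, inv_mul_cancel₀ u2.1, one_mul] at this
  exact EQ_cancel u2 mT ux.2.1 hfin

end Pool.Agent.K3h4.H48
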