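import Mathlib
import Pool.Agent.K3h4.H48.Val2

set_option autoImplicit false

/-!
The case `p = 5` modulo `6`.
-/

namespace Pool.Agent.K3h4.H48

open Finset Pool.Agent.R439.PL Pool.Agent.R439.PL.S4 Pool.Agent.R488.Tri Pool.Agent.R488.Cub

variable {p j : ℕ} [hp : Fact p.Prime]

theorem Q2_eq5 (hpj : p = 6 * j + 5) : ∃ Y : ℚ, Q2 (3 * j + 2) = p * Y ∧
    EQ p 1 (3 * Y) (-(3 ^ (3 * j + 2) * (2 * j + 1).factorial * j.factorial)) := by
  have hpq : (p : ℚ) = 6 * j + 5 := by exact_mod_cast hpj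
  refine ⟨(∏ l ∈ range (2 * j + 1), (3 * (l : ℚ) + 2)) * ∏ l ∈ range j, (3 * ((2 * j + 1 + (l + 1) : ℕ) : ℚ) + 2),
    ?_, ?_⟩
  · rw [Q2, show 3 * j + 2 = (2 * j + 1) + (j + 1) by ring, prod_range_add,
      prod_range_succ' (fun x => 3 * ((2 * j + 1 + x : ℕ) : ℚ) + 2), hpq]
    push_cast; ring
  · have u3 : U p (3 : ℚ) := by exact_mod_cast U_nat (p := p) (k := 3) (by norm_num) (by omega)
    have h1 : EQ p 1 (∏ l ∈ range (2 * j + 1), (3 * (l : ℚ) + 2))
        (∏ l ∈ range (2 * j + 1), (-3 * ((2 * j + 1 - 1 - l + 1 : ℕ) : ℚ))) := by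
      refine EQ.prod fun l hl => ?_
      have hl' := mem_range.1 hl
      refine ⟨add_mem (mul_mem u3.2.1 (nat_mem l)) (by exact_mod_cast nat_mem (p := p) 2),
        mul_mem (neg_mem u3.2.1) (nat_mem _), ?_⟩
      have e : (3 * (l : ℚ) + 2) - (-3 * ((2 * j + 1 - 1 - l + 1 : ℕ) : ℚ)) = p := by
        rw [show 2 * j + 1 - 1 - l + 1 = 2 * j + 1 - l by omega, Nat.cast_sub (by omega), hpq]
        push_cast; ring
      rw [e]; exact I_p
    have e1 : ∏ l ∈ range (2 * j + 1), (-3 * ((2 * j + 1 - 1 - l + 1 : ℕ) : ℚ)) =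
        (-3) ^ (2 * j + 1) * (2 * j + 1).factorial := by
      rw [prod_range_reflect (fun l => -3 * ((l + 1 : ℕ) : ℚ)), prod_mul_distrib, prod_const, card_range,
        ← Nat.cast_prod, prod_range_add_one_eq_factorial]
    have h2 : EQ p 1 (∏ l ∈ range j, (3 * ((2 * j + 1 + (l + 1) : ℕ) : ℚ) + 2))
        (∏ l ∈ range j, (3 * ((l + 1 : ℕ) : ℚ))) := by
      refine EQ.prod fun l _ => ?_
      refine ⟨add_mem (mul_mem u3.2.1 (nat_mem _)) (by exact_mod_cast nat_mem (p := p) 2),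
        mul_mem u3.2.1 (nat_mem _), ?_⟩
      have e : 3 * ((2 * j + 1 + (l + 1) : ℕ) : ℚ) + 2 - 3 * ((l + 1 : ℕ) : ℚ) = p := by
        rw [hpq]; push_cast; ring
      rw [e]; exact I_p
    have e2 : ∏ l ∈ range j, (3 * ((l + 1 : ℕ) : ℚ)) = 3 ^ j * j.factorial := by
      rw [prod_mul_distrib, prod_const, card_range, ← Nat.cast_prod, prod_range_add_one_eq_factorial]
    rw [e1] at h1
    rw [e2] at h2
    have h3 := (EQ.refl (k := 1) u3.2.1).mul (h1.mul h2)
    have e3 : (3 : ℚ) * ((-3) ^ (2 * j + 1) * (2 * j + 1).factorial * (3 ^ j * j.factorial)) =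
        -(3 ^ (3 * j + 2) * (2 * j + 1).factorial * j.factorial) := by
      have p1 : (-3 : ℚ) ^ (2 * j + 1) = -3 * 9 ^ j := by rw [pow_succ, pow_mul]; norm_num; ring
      have p2 : (3 : ℚ) ^ (3 * j + 2) = 9 * (9 ^ j * 3 ^ j) := by
        rw [pow_add, pow_mul, ← mul_pow]; norm_num; ring
      rw [p1, p2]
      ring
    rwa [e3] at h3

/-- the sum for `p = 5` modulo `6` -/
theorem S_5 (hpj : p = 6 * j + 5) : U p (2 * ((3 * j + 3).choose (j + 1) : ℚ)) ∧
    EQ p 2 (FF p 0) (3 * p / (2 * ((3 * j + 3).choose (j + 1) : ℚ))) := by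
  have hpq : (p : ℚ) = 6 * j + 5 := by exact_mod_cast hpj
  have u3 : U p (3 : ℚ) := by exact_mod_cast U_nat (p := p) (k := 3) (by norm_num) (by omega)
  have u2 : U p (2 : ℚ) := by exact_mod_cast U_nat (p := p) (k := 2) (by norm_num) (by omega)
  have hl := lin_FF (p := p) (by omega)
  have h0 := interp13 hl u2
  have e1 : FF p p = 0 := by
    have : (p : ℚ) = 2 * ((3 * j + 2 : ℕ) : ℚ) + 1 := by rw [hpq]; push_cast; ring
    rw [this, FF_n (by omega), Fval2]
  rw [e1, mul_zero, zero_sub] at h0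
  obtain ⟨c, hc⟩ : ∃ c : ℚ, c = ((3 * j + 3).choose (j + 1) : ℚ) := ⟨_, rfl⟩
  have uc : U p c := by rw [hc]; exact C_unit (by omega) (by omega)
  obtain ⟨m, hm⟩ : ∃ m, m = 3 * j + 2 := ⟨_, rfl⟩
  obtain ⟨g, hg⟩ : ∃ g : ℚ, g = FF p (3 * p) := ⟨_, rfl⟩
  have hG : g = S wF (3 * m + 1) := by
    have : 3 * (p : ℚ) = 2 * ((3 * m + 1 : ℕ) : ℚ) + 1 := by rw [hpq, hm]; push_cast; ring
    rw [hg, this]; exact FF_n (by omega)
  have hF := Fval1 m
  rw [← hG] at hF
  obtain ⟨Y, hY, hY2⟩ := Q2_eq5 (p := p) hpj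
  rw [← hm] at hY hY2
  rw [hY] at hF
  have mY3 := hY2.1
  have mY : Y ∈ Zp p := by
    have := mul_mem u3.2.2 mY3
    rwa [← mul_assoc, inv_mul_cancel₀ u3.1, one_mul] at this
  have uu : U p ((3 : ℚ) ^ m * (2 * m).factorial) := (u3.pow _).mul (U_fac (p := p) (by omega))
  obtain ⟨z, hz⟩ : ∃ z : ℚ, z = ((-1) ^ m * m.factorial * Y) * ((3 : ℚ) ^ m * (2 * m).factorial)⁻¹ := ⟨_, rfl⟩
  have mz : z ∈ Zp p := by
    rw [hz]; exact mul_mem (mul_mem (mul_mem (neg_mem' _) (nat_mem _)) mY) uu.2.2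
  have hgz : g = p * z := by
    rw [hz, ← mul_assoc, ← div_eq_mul_inv, eq_div_iff uu.1, hF]; ring
  have hs : ((-1 : ℚ)) ^ m * (-1) ^ m = 1 := by rw [← mul_pow]; norm_num
  have hch := choose_pm1 (p := p) m (by omega)
  rw [show p - 1 = 2 * m by omega] at hch
  have key : EQ p 1 (z * c) (-3) := by
    have c3 := Nat.choose_mul_factorial_mul_factorial (show j + 1 ≤ 3 * j + 3 by omega)
    rw [show 3 * j + 3 - (j + 1) = 2 * j + 2 by omega] at c3
    have d3 : c * (j + 1).factorial * (2 * j + 2).factorial = (3 * j + 3).factorial := by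
      rw [hc]; exact_mod_cast c3
    have d3' : c * (2 * j + 2) * ((2 * j + 1).factorial * j.factorial) = 3 * m.factorial := by
      have f1 : ((j + 1).factorial : ℚ) = (j + 1) * j.factorial := by rw [Nat.factorial_succ]; push_cast; ring
      have f2 : ((2 * j + 2).factorial : ℚ) = (2 * j + 2) * (2 * j + 1).factorial := by
        rw [Nat.factorial_succ]; push_cast; ring
      have f3 : ((3 * j + 3).factorial : ℚ) = (3 * j + 3) * m.factorial := by
        rw [hm, Nat.factorial_succ]; push_cast; ring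
      rw [f1, f2, f3] at d3
      have a : ((j : ℚ) + 1) ≠ 0 := by positivity
      apply mul_left_cancel₀ a
      linear_combination d3
    have c4 := Nat.choose_mul_factorial_mul_factorial (show m ≤ 2 * m by omega)
    rw [show 2 * m - m = m by omega] at c4
    have d4 : ((2 * m).choose m : ℚ) * m.factorial * m.factorial = (2 * m).factorial := by exact_mod_cast c4
    have m2j : (2 * (j : ℚ) + 2) ∈ Zp p := add_mem (mul_mem u2.2.1 (nat_mem j)) u2.2.1
    have h1 : EQ p 1 (3 * (z * c * (((3 : ℚ) ^ m * (2 * m).factorial) * (2 * (j : ℚ) + 2))))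
        (-((-1) ^ m * 3 * (3 ^ m * (m.factorial * m.factorial)))) := by
      have h2 := hY2.mul (EQ.refl (k := 1) (mul_mem (mul_mem (mul_mem (neg_mem' (p := p) m)
        (nat_mem m.factorial)) uc.2.1) m2j))
      have x1 : (3 * Y) * ((-1) ^ m * m.factorial * c * (2 * (j : ℚ) + 2)) =
          3 * (z * c * (((3 : ℚ) ^ m * (2 * m).factorial) * (2 * (j : ℚ) + 2))) := by
        rw [hz]
        have a1 := uu.1
        generalize ((3 : ℚ) ^ m * (2 * m).factorial) = w at a1 ⊢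
        field_simp
      have x2 : (-(3 ^ m * ((2 * j + 1).factorial : ℚ) * j.factorial)) *
          ((-1) ^ m * m.factorial * c * (2 * (j : ℚ) + 2)) =
          -((-1) ^ m * 3 * (3 ^ m * (m.factorial * m.factorial))) := by
        linear_combination (-((-1) ^ m * 3 ^ m * m.factorial)) * d3'
      rwa [x1, x2] at h2
    have h6j : 3 * (2 * (j : ℚ) + 2) = p + 1 := by rw [hpq]; ring
    have uC : U p ((2 * m).choose m : ℚ) := C_unit (by omega) (by omega)
    have uf := U_fac (p := p) (k := m) (by omega)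
    have uw : U p ((3 : ℚ) ^ m * (m.factorial * m.factorial)) := (u3.pow _).mul (uf.mul uf)
    refine ⟨mul_mem mz uc.2.1, neg_mem u3.2.1, ?_⟩
    have h5 : I p 1 (z * c * (p + 1) * ((2 * m).choose m : ℚ) + 3 * (-1) ^ m) := by
      refine uw.cancel ?_
      have e : (3 : ℚ) ^ m * (m.factorial * m.factorial) *
          (z * c * (p + 1) * ((2 * m).choose m : ℚ) + 3 * (-1) ^ m) =
          3 * (z * c * (((3 : ℚ) ^ m * (2 * m).factorial) * (2 * (j : ℚ) + 2))) -
          (-((-1) ^ m * 3 * (3 ^ m * (m.factorial * m.factorial)))) := by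
        rw [← d4, ← h6j]; ring
      rw [e]; exact h1.2.2
    have h6 : I p 1 ((-1) ^ m * (z * c + 3)) := by
      have e : (-1 : ℚ) ^ m * (z * c + 3) = (z * c * (p + 1) * ((2 * m).choose m : ℚ) + 3 * (-1) ^ m) -
          z * c * (((2 * m).choose m : ℚ) - (-1) ^ m) -
          p * (z * c * ((2 * m).choose m : ℚ)) := by ring
      rw [e]
      exact (h5.sub (hch.2.2.mulL (mul_mem mz uc.2.1))).sub
        ((I_p (p := p)).mulR (mul_mem (mul_mem mz uc.2.1) uC.2.1))
    have h7 := h6.mulL (neg_mem' (p := p) m)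
    rw [← mul_assoc, hs, one_mul] at h7
    have e : z * c - -3 = z * c + 3 := by ring
    rw [e]; exact h7
  rw [← hc]
  have u2c := u2.mul uc
  refine ⟨u2c, ?_⟩
  rw [← hg] at h0
  have mfin : 3 * (p : ℚ) / (2 * c) ∈ Zp p := by
    rw [div_eq_mul_inv]; exact mul_mem (mul_mem u3.2.1 p_mem) u2c.2.2
  refine ⟨h0.1, mfin, u2c.cancel ?_⟩
  have a1 := u2.1
  have a2 := uc.1
  have e : 2 * c * (FF p 0 - 3 * p / (2 * c)) = 2 * c * (FF p 0 - -g / 2) - p * (z * c - -3) := by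
    rw [hgz]
    field_simp
    ring
  rw [e]
  exact (h0.2.2.mulL u2c.2.1).sub ((I_p (p := p)).mul key.2.2)

end Pool.Agent.K3h4.H48
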